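import Mathlib

set_option autoImplicit false

namespace Pool.Agent.MP_f5d2e4_al

open Subgroup

universe u

/-- `G` satisfies the maximal condition on subgroups: every subgroup is finitely generated. -/
def HasMax (G : Type u) [Group G] : Prop := ∀ S : Subgroup G, S.FG

/-- `G` is residually soluble. -/
def ResSol (G : Type u) [Group G] : Prop := ∀ g : G, g ≠ 1 → ∃ n : ℕ, g ∉ derivedSeries G n

/-- `G` is residually finite. -/
def ResFin (G : Type u) [Group G] : Prop :=
  ∀ g : G, g ≠ 1 → ∃ N : Subgroup G, N.Normal ∧ N.FiniteIndex ∧ g ∉ N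

theorem HasMax.wf {G : Type u} [Group G] (h : HasMax G) : WellFoundedGT (Subgroup G) := by
  rw [wellFoundedGT_iff_monotone_chain_condition]
  intro a
  obtain ⟨S, hS⟩ := h (⨆ i, a i)
  have hdir : Directed (· ≤ ·) (fun i => a i) := a.monotone.directed_le
  have h1 : ∀ s ∈ S, ∃ i, s ∈ a i := by
    intro s hs
    have : s ∈ ⨆ i, a i := by rw [← hS]; exact subset_closure hs
    exact (Subgroup.mem_iSup_of_directed hdir).1 this
  choose! f hf using h1
  refine ⟨S.sup f, fun m hm => ?_⟩
  apply le_antisymm (a.monotone hm)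
  have : a m ≤ ⨆ i, a i := le_iSup (fun i => a i) m
  refine this.trans ?_
  rw [← hS, closure_le]
  intro s hs
  exact a.monotone (Finset.le_sup hs) (hf s hs)

theorem HasMax.exists_maximal {G : Type u} [Group G] (h : HasMax G) (P : Subgroup G → Prop)
    (h0 : P ⊥) : ∃ S, P S ∧ ∀ T, S < T → ¬ P T := by
  have := h.wf
  obtain ⟨S, hS, hm⟩ := WellFounded.has_min this.wf {S | P S} ⟨⊥, h0⟩
  exact ⟨S, hS, fun T hT hP => hm T hP hT⟩

theorem HasMax.of_injective {G H : Type u} [Group G] [Group H] (h : HasMax G) (f : H →* G)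
    (hf : Function.Injective f) : HasMax H := by
  intro S
  have h1 := (Group.fg_iff_subgroup_fg _).2 (h (S.map f))
  rw [← Group.fg_iff_subgroup_fg]
  exact Group.fg_of_surjective (f := (S.equivMapOfInjective f hf).symm.toMonoidHom)
    (S.equivMapOfInjective f hf).symm.surjective

theorem HasMax.of_surjective {G H : Type u} [Group G] [Group H] (h : HasMax G) (f : G →* H)
    (hf : Function.Surjective f) : HasMax H := by
  intro S
  have h1 : (S.comap f).FG := h _
  have h2 : ((S.comap f).map f).FG := by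
    rw [← Group.fg_iff_subgroup_fg] at h1 ⊢
    exact Group.fg_of_surjective (f := f.subgroupMap (S.comap f))
      (MonoidHom.subgroupMap_surjective _ _)
  rwa [Subgroup.map_comap_eq_self_of_surjective hf] at h2

theorem ResSol.of_injective {G H : Type u} [Group G] [Group H] (h : ResSol G) (f : H →* G)
    (hf : Function.Injective f) : ResSol H := by
  intro g hg
  obtain ⟨n, hn⟩ := h (f g) (fun e => hg (hf (by rw [e, map_one])))
  exact ⟨n, fun hm => hn (map_derivedSeries_le_derivedSeries f n (mem_map_of_mem f hm))⟩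

/-- the key computation: `G / C_G(X)` is residually soluble. -/
theorem ResSol.quot_centralizer {G : Type u} [Group G] (h : ResSol G) (X : Subgroup G)
    [hC : (centralizer (X : Set G)).Normal] : ResSol (G ⧸ centralizer (X : Set G)) := by
  intro q hq
  obtain ⟨g, rfl⟩ := QuotientGroup.mk'_surjective (centralizer (X : Set G)) q
  have hg : g ∉ centralizer (X : Set G) := fun e => hq ((QuotientGroup.eq_one_iff g).2 e)
  rw [mem_centralizer_iff] at hg
  push Not at hg
  obtain ⟨a, ha, hne⟩ := hg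
  have hne' : g * a * g⁻¹ * a⁻¹ ≠ 1 := by
    intro e
    apply hne
    have := mul_inv_eq_one.1 e
    have h2 : g * a = a * g := mul_inv_eq_iff_eq_mul.1 this
    exact h2.symm
  obtain ⟨n, hn⟩ := h _ hne'
  refine ⟨n, fun hm => hn ?_⟩
  rw [← map_derivedSeries_eq (QuotientGroup.mk'_surjective (centralizer (X : Set G))) n] at hm
  obtain ⟨d, hd, hdq⟩ := mem_map.1 hm
  have hc : d⁻¹ * g ∈ centralizer (X : Set G) := QuotientGroup.eq.1 hdq
  have hcomm : (d⁻¹ * g) * a = a * (d⁻¹ * g) := (mem_centralizer_iff.1 hc a ha).symm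
  have hgd : g = d * (d⁻¹ * g) := by group
  have e : g * a * g⁻¹ * a⁻¹ = d * (a * d⁻¹ * a⁻¹) := by
    have : (d⁻¹ * g) * a * (d⁻¹ * g)⁻¹ = a := by rw [hcomm]; group
    calc g * a * g⁻¹ * a⁻¹ = d * ((d⁻¹ * g) * a * (d⁻¹ * g)⁻¹) * d⁻¹ * a⁻¹ := by group
      _ = d * a * d⁻¹ * a⁻¹ := by rw [this]
      _ = d * (a * d⁻¹ * a⁻¹) := by group
  rw [e]
  exact mul_mem hd ((derivedSeries_normal G n).conj_mem _ (inv_mem hd) a)

theorem center_eq_centralizer (G : Type u) [Group G] :
    center G = centralizer ((⊤ : Subgroup G) : Set G) := by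
  simp [Subgroup.centralizer_univ]

theorem ResSol.quot_center {G : Type u} [Group G] (h : ResSol G) : ResSol (G ⧸ center G) := by
  intro q hq
  obtain ⟨g, rfl⟩ := QuotientGroup.mk'_surjective (center G) q
  have hg : g ∉ center G := fun e => hq ((QuotientGroup.eq_one_iff g).2 e)
  rw [mem_center_iff] at hg
  push Not at hg
  obtain ⟨a, hne⟩ := hg
  have hne' : g * a * g⁻¹ * a⁻¹ ≠ 1 := by
    intro e
    apply hne
    have := mul_inv_eq_one.1 e
    have h2 : g * a = a * g := mul_inv_eq_iff_eq_mul.1 this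
    exact h2.symm
  obtain ⟨n, hn⟩ := h _ hne'
  refine ⟨n, fun hm => hn ?_⟩
  rw [← map_derivedSeries_eq (QuotientGroup.mk'_surjective (center G)) n] at hm
  obtain ⟨d, hd, hdq⟩ := mem_map.1 hm
  have hc : d⁻¹ * g ∈ center G := QuotientGroup.eq.1 hdq
  have hcomm : (d⁻¹ * g) * a = a * (d⁻¹ * g) := (mem_center_iff.1 hc a).symm
  have e : g * a * g⁻¹ * a⁻¹ = d * (a * d⁻¹ * a⁻¹) := by
    have : (d⁻¹ * g) * a * (d⁻¹ * g)⁻¹ = a := by rw [hcomm]; group
    calc g * a * g⁻¹ * a⁻¹ = d * ((d⁻¹ * g) * a * (d⁻¹ * g)⁻¹) * d⁻¹ * a⁻¹ := by group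
      _ = d * a * d⁻¹ * a⁻¹ := by rw [this]
      _ = d * (a * d⁻¹ * a⁻¹) := by group
  rw [e]
  exact mul_mem hd ((derivedSeries_normal G n).conj_mem _ (inv_mem hd) a)

end Pool.Agent.MP_f5d2e4_al
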