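import Pool.Agent.RSG.A

set_option autoImplicit false

namespace Pool.Agent.MP_f5d2e4_al

open Subgroup

universe u

/-- derived series of a subgroup, inside the ambient group -/
def dser {G : Type u} [Group G] (S : Subgroup G) : ℕ → Subgroup G
  | 0 => S
  | n + 1 => ⁅dser S n, dser S n⁆

theorem dser_map {G H : Type u} [Group G] [Group H] (f : G →* H) (S : Subgroup G) (n : ℕ) :
    (dser S n).map f = dser (S.map f) n := by
  induction n with
  | zero => rfl
  | succ n ih => simp only [dser, Subgroup.map_commutator, ih]

theorem dser_mono {G : Type u} [Group G] {S T : Subgroup G} (h : S ≤ T) (n : ℕ) :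
    dser S n ≤ dser T n := by
  induction n with
  | zero => exact h
  | succ n ih => exact commutator_mono ih ih

theorem dser_top (G : Type u) [Group G] (n : ℕ) : dser (⊤ : Subgroup G) n = derivedSeries G n := by
  induction n with
  | zero => rfl
  | succ n ih => simp only [dser, derivedSeries_succ, ih]

theorem dser_normal {G : Type u} [Group G] (S : Subgroup G) [hS : S.Normal] (n : ℕ) :
    (dser S n).Normal := by
  induction n with
  | zero => exact hS
  | succ n ih => exact Subgroup.commutator_normal _ _

theorem dser_sub {G : Type u} [Group G] (S : Subgroup G) (n : ℕ) :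
    (derivedSeries S n).map S.subtype = dser S n := by
  rw [← dser_top, dser_map]
  congr 1
  ext x
  simp

theorem isSolvable_iff_dser {G : Type u} [Group G] (S : Subgroup G) :
    Group.IsSolvable S ↔ ∃ n, dser S n = ⊥ := by
  rw [Group.isSolvable_def]
  refine exists_congr fun n => ?_
  rw [← dser_sub]
  constructor
  · intro h; rw [h, Subgroup.map_bot]
  · intro h
    exact (map_eq_bot_iff_of_injective _ S.subtype_injective).1 h

theorem derivedSeries_le_of_le {G : Type u} [Group G] {m n : ℕ} (h : m ≤ n) :
    derivedSeries G n ≤ derivedSeries G m := derivedSeries_antitone G h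

/-- a finite residually soluble group is soluble -/
theorem ResSol.solvable_of_finite {G : Type u} [Group G] [Finite G] (h : ResSol G) :
    Group.IsSolvable G := by
  classical
  have := Fintype.ofFinite G
  have h' : ∀ g : G, ∃ n, g ≠ 1 → g ∉ derivedSeries G n := by
    intro g
    by_cases hg : g = 1
    · exact ⟨0, fun e => absurd hg e⟩
    · obtain ⟨n, hn⟩ := h g hg
      exact ⟨n, fun _ => hn⟩
  choose f hf using h'
  refine ⟨⟨Finset.univ.sup f, ?_⟩⟩
  rw [eq_bot_iff]
  intro g hg
  rw [mem_bot]
  by_contra hne
  exact hf g hne (derivedSeries_le_of_le (Finset.le_sup (Finset.mem_univ g)) hg)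

/-- **Lemma V.** A residually soluble group with a soluble normal subgroup of finite index is
soluble. -/
theorem ResSol.solvable_of_finiteIndex_aux (d : ℕ) : ∀ (G : Type u) [Group G], ResSol G →
    ∀ S : Subgroup G, S.Normal → S.FiniteIndex → dser S d = ⊥ → Group.IsSolvable G := by
  induction d with
  | zero =>
    intro G _ hG S hn hfi hd
    have hS : S = ⊥ := hd
    subst hS
    have : Finite G := by
      have h1 : (⊥ : Subgroup G).index ≠ 0 := hfi.index_ne_zero
      rw [Subgroup.index_bot] at h1
      exact Nat.finite_of_card_ne_zero h1
    exact hG.solvable_of_finite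
  | succ d ih =>
    intro G _ hG S hn hfi hd
    set A : Subgroup G := dser S d with hA
    have hAn : A.Normal := dser_normal S d
    have hAA : ⁅A, A⁆ = ⊥ := hd
    have hAC : A ≤ centralizer (A : Set G) := commutator_eq_bot_iff_le_centralizer.1 hAA
    set C : Subgroup G := centralizer (A : Set G) with hCdef
    have hCn : C.Normal := inferInstance
    -- the quotient
    have h1 : Group.IsSolvable (G ⧸ C) := by
      refine ih (G ⧸ C) (hG.quot_centralizer A) (S.map (QuotientGroup.mk' C)) ?_ ?_ ?_
      · exact hn.map _ (QuotientGroup.mk'_surjective C)
      · have : S.FiniteIndex := hfi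
        constructor
        intro h0
        have := S.index_map_dvd (f := QuotientGroup.mk' C) (QuotientGroup.mk'_surjective C)
        rw [h0] at this
        exact hfi.index_ne_zero (Nat.eq_zero_of_zero_dvd this)
      · rw [← dser_map, ← hA, Subgroup.map_eq_bot_iff, QuotientGroup.ker_mk']
        exact hAC
    -- the kernel
    have h2 : Group.IsSolvable (C ⧸ center C) := by
      have hSC : (S.subgroupOf C).Normal := inferInstance
      have hSCf : (S.subgroupOf C).FiniteIndex := inferInstance
      refine ih (C ⧸ center C) (ResSol.quot_center (hG.of_injective C.subtype C.subtype_injective))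
        ((S.subgroupOf C).map (QuotientGroup.mk' (center C))) ?_ ?_ ?_
      · exact hSC.map _ (QuotientGroup.mk'_surjective _)
      · constructor
        intro h0
        have := (S.subgroupOf C).index_map_dvd (f := QuotientGroup.mk' (center C))
          (QuotientGroup.mk'_surjective _)
        rw [h0] at this
        exact hSCf.index_ne_zero (Nat.eq_zero_of_zero_dvd this)
      · rw [← dser_map, Subgroup.map_eq_bot_iff, QuotientGroup.ker_mk']
        intro x hx
        have h3 : (x : G) ∈ dser S d := by
          have h4 : C.subtype x ∈ (dser (S.subgroupOf C) d).map C.subtype := mem_map_of_mem _ hx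
          rw [dser_map] at h4
          have h5 : (S.subgroupOf C).map C.subtype ≤ S := by
            rw [Subgroup.subgroupOf_map_subtype]; exact inf_le_left
          exact dser_mono h5 d h4
        rw [mem_center_iff]
        intro c
        ext
        exact (mem_centralizer_iff.1 c.2 (x : G) h3).symm
    have hZ : Group.IsSolvable (center C) := Group.isSolvable_of_comm (fun a b => Subtype.ext (mem_center_iff.1 b.2 a.1))
    have h3 : Group.IsSolvable C :=
      Group.isSolvable_of_ker_le_range (center C).subtype (QuotientGroup.mk' (center C))
        (by simp)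
    exact Group.isSolvable_of_ker_le_range C.subtype (QuotientGroup.mk' C) (by simp)

theorem ResSol.solvable_of_finiteIndex {G : Type u} [Group G] (hG : ResSol G) (S : Subgroup G)
    [hfi : S.FiniteIndex] (hS : Group.IsSolvable S) : Group.IsSolvable G := by
  have hS' : Group.IsSolvable S.normalCore := by
    have : Function.Injective (Subgroup.inclusion S.normalCore_le) :=
      Subgroup.inclusion_injective _
    exact Group.isSolvable_of_isSolvable_injective this
  obtain ⟨n, hn⟩ := (isSolvable_iff_dser _).1 hS'
  exact ResSol.solvable_of_finiteIndex_aux n G hG S.normalCore inferInstance inferInstance hn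

end Pool.Agent.MP_f5d2e4_al
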