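import Pool.Agent.RSG.B

set_option autoImplicit false

namespace Pool.Agent.MP_f5d2e4_al

open Subgroup

universe u

/-- a class of groups closed under subgroups, quotients and extensions -/
structure QProp (Q : (K : Type u) → [Group K] → Prop) : Prop where
  inj : ∀ {K L : Type u} [Group K] [Group L] (f : K →* L), Function.Injective f → Q L → Q K
  surj : ∀ {K L : Type u} [Group K] [Group L] (f : K →* L), Function.Surjective f → Q K → Q L
  ext : ∀ {K L : Type u} [Group K] [Group L] (f : K →* L), Q f.ker → Q L → Q K

theorem qprop_solvable : QProp.{u} (fun K _ => Group.IsSolvable K) where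
  inj := fun f hf h => Group.isSolvable_of_isSolvable_injective hf
  surj := fun f hf h => Group.isSolvable_of_surjective hf
  ext := fun f h1 h2 => Group.isSolvable_of_ker_le_range f.ker.subtype f (by simp)

theorem qprop_finite : QProp.{u} (fun K _ => Finite K) where
  inj := fun f hf h => Finite.of_injective f hf
  surj := fun f hf h => Finite.of_surjective f hf
  ext := fun f h1 h2 => by
    have : Finite (_ ⧸ f.ker) :=
      Finite.of_injective _ (QuotientGroup.kerLift_injective f)
    exact Finite.of_subgroup_quotient f.ker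

variable {Q : (K : Type u) → [Group K] → Prop}

/-- the choice of the centraliser -/
theorem exists_C (hQ : QProp Q) {G : Type u} [Group G] (hmax : HasMax G) (hG : ¬ Q G) :
    ∃ C : Subgroup G, ¬ Q C ∧ ∀ c : C, c ∉ center C → Q (centralizer ({c} : Set C)) := by
  obtain ⟨S, hS, hm⟩ := hmax.exists_maximal (fun S => ¬ Q (centralizer (S : Set G))) (by
    intro h
    apply hG
    refine hQ.inj (MonoidHom.codRestrict (MonoidHom.id G) (centralizer ((⊥ : Subgroup G) : Set G))
      (fun x => ?_)) ?_ h
    · rw [mem_centralizer_iff]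
      intro y hy
      have : y = 1 := by simpa using hy
      subst this
      simp
    · intro x y hxy
      exact congrArg Subtype.val hxy)
  refine ⟨centralizer (S : Set G), hS, fun c hc => ?_⟩
  have hcS : (c : G) ∉ S := by
    intro h
    apply hc
    rw [mem_center_iff]
    intro g
    ext
    exact (mem_centralizer_iff.1 g.2 (c : G) h).symm
  have hlt : S < S ⊔ zpowers (c : G) := by
    refine lt_of_le_of_ne le_sup_left (fun e => hcS ?_)
    exact e.symm.le ((le_sup_right : zpowers (c : G) ≤ S ⊔ zpowers (c : G)) (mem_zpowers _))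
  have h1 : Q (centralizer ((S ⊔ zpowers (c : G) : Subgroup G) : Set G)) := by
    by_contra hne
    exact hm _ hlt hne
  refine hQ.inj (MonoidHom.codRestrict ((centralizer (S : Set G)).subtype.comp
    (centralizer ({c} : Set _)).subtype) _ (fun x => ?_)) ?_ h1
  · have hle : S ⊔ zpowers (c : G) ≤ centralizer ({(x : centralizer (S : Set G)).1} : Set G) := by
      rw [sup_le_iff, zpowers_le]
      constructor
      · intro s hs
        rw [mem_centralizer_iff]
        intro y hy
        rw [Set.mem_singleton_iff] at hy
        subst hy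
        exact (mem_centralizer_iff.1 x.1.2 s hs).symm
      · rw [mem_centralizer_iff]
        intro y hy
        rw [Set.mem_singleton_iff] at hy
        subst hy
        have := mem_centralizer_iff.1 x.2 c rfl
        exact (congrArg Subtype.val this).symm
    rw [mem_centralizer_iff]
    intro s hs
    exact (mem_centralizer_iff.1 (hle hs) _ rfl).symm
  · intro x y hxy
    have := congrArg Subtype.val hxy
    exact Subtype.ext (Subtype.ext this)

/-- passing to the quotient by the centre -/
theorem quot_center_Q (hQ : QProp Q) {K : Type u} [Group K]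
    (hK : ∀ c : K, c ∉ center K → Q (centralizer ({c} : Set K))) (h : K ⧸ center K) (hh : h ≠ 1) :
    Q (centralizer ({h} : Set (K ⧸ center K))) := by
  obtain ⟨c, rfl⟩ := QuotientGroup.mk'_surjective (center K) h
  have hc : c ∉ center K := fun e => hh ((QuotientGroup.eq_one_iff c).2 e)
  have hQc := hK c hc
  have hQZ : Q (center K) := hQ.inj (Subgroup.inclusion (Subgroup.center_le_centralizer {c}))
    (Subgroup.inclusion_injective _) hQc
  set π := QuotientGroup.mk' (center K) with hπ
  set D : Subgroup K := (centralizer ({π c} : Set (K ⧸ center K))).comap π with hD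
  have hDc : ∀ x : D, (x : K) * c * (x : K)⁻¹ * c⁻¹ ∈ center K := by
    intro x
    have h1 : π x ∈ centralizer ({π c} : Set (K ⧸ center K)) := x.2
    have h2 : π c * π x = π x * π c := mem_centralizer_iff.1 h1 _ rfl
    rw [← QuotientGroup.ker_mk' (center K), MonoidHom.mem_ker]
    change π (x * c * (x : K)⁻¹ * c⁻¹) = 1
    rw [map_mul, map_mul, map_mul, map_inv, map_inv, ← h2]
    group
  let φ : D →* center K :=
    { toFun := fun x => ⟨(x : K) * c * (x : K)⁻¹ * c⁻¹, hDc x⟩
      map_one' := by ext; simp
      map_mul' := by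
        intro x y
        ext
        change (x : K) * y * c * ((x : K) * y)⁻¹ * c⁻¹ =
          (x : K) * c * (x : K)⁻¹ * c⁻¹ * ((y : K) * c * (y : K)⁻¹ * c⁻¹)
        have hy := mem_center_iff.1 (hDc y) ((x : K) * c * (x : K)⁻¹ * c⁻¹)
        have hy2 := mem_center_iff.1 (hDc y) (x : K)
        calc (x : K) * y * c * ((x : K) * y)⁻¹ * c⁻¹
            = ((x : K) * (y * c * (y : K)⁻¹ * c⁻¹)) * c * (x : K)⁻¹ * c⁻¹ := by group
          _ = ((y * c * (y : K)⁻¹ * c⁻¹) * (x : K)) * c * (x : K)⁻¹ * c⁻¹ := by rw [hy2]
          _ = (y * c * (y : K)⁻¹ * c⁻¹) * ((x : K) * c * (x : K)⁻¹ * c⁻¹) := by group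
          _ = _ := hy.symm }
  have hQker : Q φ.ker := by
    refine hQ.inj (MonoidHom.codRestrict (D.subtype.comp φ.ker.subtype)
      (centralizer ({c} : Set K)) (fun x => ?_)) ?_ hQc
    · rw [mem_centralizer_iff]
      intro y hy
      rw [Set.mem_singleton_iff] at hy
      subst hy
      have h1 : φ x.1 = 1 := x.2
      have h2 : (x.1 : K) * y * (x.1 : K)⁻¹ * y⁻¹ = 1 := congrArg Subtype.val h1
      have h3 : (x.1 : K) * y * (x.1 : K)⁻¹ = y := mul_inv_eq_one.1 h2
      exact (mul_inv_eq_iff_eq_mul.1 h3).symm
    · intro x y hxy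
      have h5 : ((x : D) : K) = ((y : D) : K) :=
        congrArg (fun z : centralizer ({c} : Set K) => (z : K)) hxy
      exact Subtype.ext (Subtype.ext h5)
  have hQD : Q D := hQ.ext φ hQker hQZ
  refine hQ.surj (π.subgroupComap (centralizer ({π c} : Set (K ⧸ center K)))) ?_ hQD
  exact MonoidHom.subgroupComap_surjective_of_surjective _ _
    (QuotientGroup.mk'_surjective (center K))

theorem not_Q_quot_center (hQ : QProp Q) {K : Type u} [Group K] (hK : ¬ Q K)
    (hZ : Q (center K)) : ¬ Q (K ⧸ center K) := by
  intro h
  apply hK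
  refine hQ.ext (QuotientGroup.mk' (center K)) ?_ h
  rw [QuotientGroup.ker_mk']
  exact hZ

end Pool.Agent.MP_f5d2e4_al
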