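import Pool.Agent.RSG.C

set_option autoImplicit false

namespace Pool.Agent.MP_f5d2e4_al

open Subgroup

universe u

theorem finite_of_abelian {G : Type u} [Group G] (hmax : HasMax G) (ht : ∀ g : G, IsOfFinOrder g)
    (hc : ∀ a b : G, a * b = b * a) : Finite G := by
  let _ : CommGroup G := { (inferInstance : Group G) with mul_comm := hc }
  have : Group.FG G := (Group.fg_iff).2 ((Subgroup.fg_iff _).1 (hmax ⊤))
  exact CommGroup.finite_of_fg_isMulTorsion (G := G) ht

theorem finite_of_solvable_aux (n : ℕ) : ∀ (G : Type u) [Group G], HasMax G →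
    (∀ g : G, IsOfFinOrder g) → derivedSeries G n = ⊥ → Finite G := by
  induction n with
  | zero =>
    intro G _ _ _ h
    have h1 : (⊤ : Subgroup G) = ⊥ := h
    have : Subsingleton G := by
      refine ⟨fun a b => ?_⟩
      have ha : a ∈ (⊥ : Subgroup G) := h1 ▸ mem_top a
      have hb : b ∈ (⊥ : Subgroup G) := h1 ▸ mem_top b
      rw [mem_bot] at ha hb
      rw [ha, hb]
    infer_instance
  | succ n ih =>
    intro G _ hmax ht h
    set A := derivedSeries G n with hA
    have hAn : A.Normal := derivedSeries_normal G n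
    have hAA : ⁅A, A⁆ = ⊥ := h
    have hAC : A ≤ centralizer (A : Set G) := commutator_eq_bot_iff_le_centralizer.1 hAA
    have h1 : Finite A := by
      refine finite_of_abelian (hmax.of_injective A.subtype A.subtype_injective) (fun g => ?_) ?_
      · exact (Function.Injective.isOfFinOrder_iff (f := A.subtype) A.subtype_injective).1 (ht g)
      · intro a b
        ext
        exact (mem_centralizer_iff.1 (hAC b.2) a a.2)
    have h2 : Finite (G ⧸ A) := by
      refine ih (G ⧸ A) (hmax.of_surjective (QuotientGroup.mk' A)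
        (QuotientGroup.mk'_surjective A)) ?_ ?_
      · intro q
        obtain ⟨g, rfl⟩ := QuotientGroup.mk'_surjective A q
        exact (QuotientGroup.mk' A).isOfFinOrder (ht g)
      · rw [← map_derivedSeries_eq (QuotientGroup.mk'_surjective A) n, ← hA,
          Subgroup.map_eq_bot_iff, QuotientGroup.ker_mk']
    exact Finite.of_subgroup_quotient A

theorem finite_of_solvable {G : Type u} [Group G] (hmax : HasMax G)
    (ht : ∀ g : G, IsOfFinOrder g) (hs : Group.IsSolvable G) : Finite G := by
  obtain ⟨n, hn⟩ := (Group.isSolvable_def G).1 hs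
  exact finite_of_solvable_aux n G hmax ht hn

theorem ResFin.of_resSol {G : Type u} [Group G] (hmax : HasMax G)
    (ht : ∀ g : G, IsOfFinOrder g) (hs : ResSol G) : ResFin G := by
  intro g hg
  obtain ⟨n, hn⟩ := hs g hg
  have hN : (derivedSeries G n).Normal := derivedSeries_normal G n
  refine ⟨derivedSeries G n, hN, ?_, hn⟩
  have : Finite (G ⧸ derivedSeries G n) := by
    refine finite_of_solvable_aux n _ (hmax.of_surjective (QuotientGroup.mk' _)
        (QuotientGroup.mk'_surjective _)) ?_ ?_
    · intro q
      obtain ⟨g, rfl⟩ := QuotientGroup.mk'_surjective _ q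
      exact (QuotientGroup.mk' _).isOfFinOrder (ht g)
    · rw [← map_derivedSeries_eq (QuotientGroup.mk'_surjective (derivedSeries G n)) n,
          Subgroup.map_eq_bot_iff, QuotientGroup.ker_mk']
  exact Subgroup.finiteIndex_of_finite_quotient

theorem ResFin.of_injective {G H : Type u} [Group G] [Group H] (h : ResFin G) (f : H →* G)
    (hf : Function.Injective f) : ResFin H := by
  intro g hg
  obtain ⟨N, hN, hfi, hn⟩ := h (f g) (fun e => hg (hf (by rw [e, map_one])))
  refine ⟨N.comap f, hN.comap f, ⟨?_⟩, hn⟩
  rw [Subgroup.index_comap]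
  exact (inferInstance : (N.subgroupOf f.range).FiniteIndex).index_ne_zero

theorem ResFin.quot_center {G : Type u} [Group G] (h : ResFin G) : ResFin (G ⧸ center G) := by
  intro q hq
  obtain ⟨g, rfl⟩ := QuotientGroup.mk'_surjective (center G) q
  have hg : g ∉ center G := fun e => hq ((QuotientGroup.eq_one_iff g).2 e)
  rw [mem_center_iff] at hg
  push Not at hg
  obtain ⟨a, hne⟩ := hg
  have hne' : a * g * a⁻¹ * g⁻¹ ≠ 1 := by
    intro e
    apply hne
    have := mul_inv_eq_one.1 e
    exact mul_inv_eq_iff_eq_mul.1 this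
  obtain ⟨N, hN, hfi, hn⟩ := h _ hne'
  set M : Subgroup G := (center (G ⧸ N)).comap (QuotientGroup.mk' N) with hM
  have hMn : M.Normal := inferInstance
  have hNM : N ≤ M := by
    intro x hx
    rw [hM, mem_comap]
    have : QuotientGroup.mk' N x = 1 := (QuotientGroup.eq_one_iff x).2 hx
    rw [this]
    exact one_mem _
  have hMf : M.FiniteIndex := Subgroup.finiteIndex_of_le hNM
  have hgM : g ∉ M := by
    intro h1
    apply hn
    have h2 := mem_center_iff.1 h1 (QuotientGroup.mk' N a)
    rw [← QuotientGroup.ker_mk' N, MonoidHom.mem_ker, map_mul, map_mul, map_mul, map_inv, map_inv,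
      h2]
    group
  have hcM : center G ≤ M := by
    intro x hx
    rw [hM, mem_comap, mem_center_iff]
    intro y
    obtain ⟨y, rfl⟩ := QuotientGroup.mk'_surjective N y
    rw [← map_mul, ← map_mul, mem_center_iff.1 hx y]
  refine ⟨M.map (QuotientGroup.mk' (center G)), hMn.map _ (QuotientGroup.mk'_surjective _), ?_, ?_⟩
  · constructor
    intro h0
    have := M.index_map_dvd (f := QuotientGroup.mk' (center G)) (QuotientGroup.mk'_surjective _)
    rw [h0] at this
    exact hMf.index_ne_zero (Nat.eq_zero_of_zero_dvd this)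
  · intro h1
    obtain ⟨x, hx, hxg⟩ := mem_map.1 h1
    have hc : x⁻¹ * g ∈ center G := QuotientGroup.eq.1 hxg
    have : g = x * (x⁻¹ * g) := by group
    apply hgM
    rw [this]
    exact mul_mem hx (hcM hc)

end Pool.Agent.MP_f5d2e4_al
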