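import Pool.Agent.RSG.D

set_option autoImplicit false

namespace Pool.Agent.MP_f5d2e4_al

open Subgroup

universe u

theorem ResFin.avoid {G : Type u} [Group G] (h : ResFin G) (F : Set G) (hF : F.Finite) :
    ∃ N : Subgroup G, N.Normal ∧ N.FiniteIndex ∧ ∀ x ∈ F, x ∈ N → x = 1 := by
  induction F, hF using Set.Finite.induction_on with
  | empty => exact ⟨⊤, inferInstance, inferInstance, fun x hx => absurd hx (Set.notMem_empty x)⟩
  | @insert a s _ _ ih =>
    obtain ⟨N, hN, hfi, hn⟩ := ih
    by_cases ha : a = 1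
    · refine ⟨N, hN, hfi, fun x hx hxN => ?_⟩
      rcases Set.mem_insert_iff.1 hx with rfl | hx
      · exact ha
      · exact hn x hx hxN
    · obtain ⟨M, hM, hMf, hMn⟩ := h a ha
      refine ⟨N ⊓ M, inferInstance, inferInstance, fun x hx hxN => ?_⟩
      rcases Set.mem_insert_iff.1 hx with rfl | hx
      · exact absurd hxN.2 hMn
      · exact hn x hx hxN.1

/-- an element of order two of an infinite residually finite periodic group with the maximal
condition has an infinite centraliser -/
theorem invol {G : Type u} [Group G] [Infinite G] (hRF : ResFin G) (hmax : HasMax G)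
    (htor : ∀ g : G, IsOfFinOrder g) (t : G) (ht : t * t = 1)
    (hC : (centralizer ({t} : Set G) : Set G).Finite) : False := by
  obtain ⟨N, hN, hfi, hNC⟩ := hRF.avoid _ hC
  have htinv : t⁻¹ = t := inv_eq_of_mul_eq_one_left ht
  -- centralising elements of `N` are trivial
  have hfix : ∀ y ∈ N, t * y * t⁻¹ = y → y = 1 := by
    intro y hy hty
    refine hNC y ?_ hy
    change y ∈ centralizer ({t} : Set G)
    rw [mem_centralizer_iff]
    intro z hz
    rw [Set.mem_singleton_iff] at hz
    subst hz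
    exact mul_inv_eq_iff_eq_mul.1 hty
  -- the lifting step
  have hlift : ∀ M : Subgroup G, M ≤ N → ∀ x ∈ N, t * x * t⁻¹ * x⁻¹ ∈ M → x ∈ M := by
    intro M hMN x hx hm
    set m := t * x * t⁻¹ * x⁻¹ with hmdef
    have hinv : t * m * t⁻¹ = m⁻¹ := by
      rw [hmdef]
      calc t * (t * x * t⁻¹ * x⁻¹) * t⁻¹ = (t * t) * x * t⁻¹ * x⁻¹ * t⁻¹ := by group
        _ = x * t⁻¹ * x⁻¹ * t⁻¹ := by rw [ht, one_mul]
        _ = x * t * x⁻¹ * t⁻¹ := by rw [htinv]
        _ = (t * x * t⁻¹ * x⁻¹)⁻¹ := by group
    have hpow : ∀ k : ℕ, t * m ^ k * t⁻¹ = (m ^ k)⁻¹ := by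
      intro k
      have h1 := conj_pow (i := k) (a := t) (b := m)
      rw [hinv, inv_pow] at h1
      exact h1.symm
    have hpos : 0 < orderOf m := (htor m).orderOf_pos
    rcases Nat.even_or_odd' (orderOf m) with ⟨k, hk | hk⟩
    · exfalso
      have hk0 : 0 < k := by omega
      have h1 : t * m ^ k * t⁻¹ = m ^ k := by
        rw [hpow k]
        apply inv_eq_of_mul_eq_one_left
        rw [← pow_add, ← two_mul, ← hk, pow_orderOf_eq_one]
      have h2 : m ^ k = 1 := hfix _ (pow_mem (hMN hm) k) h1
      have := Nat.le_of_dvd hk0 (orderOf_dvd_of_pow_eq_one h2)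
      omega
    · set s := m ^ (k + 1) with hs
      have hss : s * s = m := by
        rw [hs, ← pow_add, show k + 1 + (k + 1) = (2 * k + 1) + 1 by ring, pow_succ, ← hk,
          pow_orderOf_eq_one, one_mul]
      have hsM : s ∈ M := pow_mem hm _
      have h1 : t * (s * x) * t⁻¹ = s * x := by
        calc t * (s * x) * t⁻¹ = (t * s * t⁻¹) * (t * x * t⁻¹ * x⁻¹) * x := by group
          _ = s⁻¹ * m * x := by rw [hs, hpow (k + 1)]
          _ = s⁻¹ * (s * s) * x := by rw [hss]
          _ = s * x := by group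
      have h2 : s * x = 1 := hfix _ (mul_mem (hMN hsM) hx) h1
      have h3 : x = s⁻¹ := eq_inv_of_mul_eq_one_right h2
      rw [h3]
      exact inv_mem hsM
  -- `t` inverts `N`
  have hinvN : ∀ x ∈ N, t * x * t⁻¹ = x⁻¹ := by
    intro x hx
    by_contra hne
    have hne' : t * x * t⁻¹ * x ≠ 1 := fun e => hne (eq_inv_of_mul_eq_one_left e)
    obtain ⟨M', hM', hMf', hxM'⟩ := hRF _ hne'
    set M : Subgroup G := M' ⊓ N with hMdef
    have hMN : M ≤ N := inf_le_right
    have hMn : M.Normal := inferInstance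
    have hMf : M.FiniteIndex := inferInstance
    apply hxM'
    have hfin : Finite (G ⧸ M) := inferInstance
    set π := QuotientGroup.mk' M with hπ
    set Nb : Subgroup (G ⧸ M) := N.map π with hNb
    have hNbn : Nb.Normal := hN.map _ (QuotientGroup.mk'_surjective M)
    let φ : Nb →* Nb := (MulAut.conjNormal (π t)).toMonoidHom
    have hφ : ∀ y : Nb, ((φ y : Nb) : G ⧸ M) = π t * y * (π t)⁻¹ := fun y =>
      MulAut.conjNormal_apply (π t) y
    have hfpf : MonoidHom.FixedPointFree φ := by
      intro y hy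
      obtain ⟨z, hz, hzy⟩ := mem_map.1 y.2
      have h1 : π t * π z * (π t)⁻¹ = π z := by
        have := congrArg Subtype.val hy
        rw [hφ, ← hzy] at this
        exact this
      have h2 : t * z * t⁻¹ * z⁻¹ ∈ M := by
        rw [← QuotientGroup.ker_mk' M, MonoidHom.mem_ker]
        change π (t * z * t⁻¹ * z⁻¹) = 1
        rw [map_mul, map_mul, map_mul, map_inv, map_inv, h1, mul_inv_cancel]
      have h3 : z ∈ M := hlift M hMN z hz h2
      have h4 : π z = 1 := (QuotientGroup.eq_one_iff z).2 h3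
      ext
      rw [← hzy, h4]
      rfl
    have hinvol : Function.Involutive φ := by
      intro y
      ext
      rw [hφ, hφ]
      have h1 : π t * π t = 1 := by rw [← map_mul, ht, map_one]
      have h2 : (π t)⁻¹ * (π t)⁻¹ = 1 := by rw [← mul_inv_rev, h1, inv_one]
      calc π t * (π t * (y : G ⧸ M) * (π t)⁻¹) * (π t)⁻¹
          = (π t * π t) * (y : G ⧸ M) * ((π t)⁻¹ * (π t)⁻¹) := by group
        _ = (y : G ⧸ M) := by rw [h1, h2, one_mul, mul_one]
    have h5 := hfpf.coe_eq_inv_of_involutive hinvol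
    have h6 : φ ⟨π x, mem_map_of_mem π hx⟩ = ⟨π x, mem_map_of_mem π hx⟩⁻¹ := congrFun h5 _
    have h7 : π t * π x * (π t)⁻¹ = (π x)⁻¹ := by
      have := congrArg Subtype.val h6
      rw [hφ] at this
      exact this
    have h8 : t * x * t⁻¹ * x ∈ M := by
      rw [← QuotientGroup.ker_mk' M, MonoidHom.mem_ker]
      change π (t * x * t⁻¹ * x) = 1
      rw [map_mul, map_mul, map_mul, map_inv, h7, inv_mul_cancel]
    exact (inf_le_left : M ≤ M') h8
  -- `N` is abelian, hence finite
  have hcomm : ∀ a b : N, a * b = b * a := by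
    intro a b
    ext
    have h1 := hinvN _ (mul_mem a.2 b.2)
    have h2 := hinvN _ a.2
    have h3 := hinvN _ b.2
    have h4 : t * ((a : G) * b) * t⁻¹ = (a : G)⁻¹ * (b : G)⁻¹ := by
      rw [← h2, ← h3]
      group
    rw [h4, ← mul_inv_rev, inv_inj] at h1
    exact h1.symm
  have hNfin : Finite N := finite_of_abelian (hmax.of_injective N.subtype N.subtype_injective)
    (fun g => (Function.Injective.isOfFinOrder_iff (f := N.subtype) N.subtype_injective).1
      (htor g)) hcomm
  have hQfin : Finite (G ⧸ N) := inferInstance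
  have : Finite G := Finite.of_subgroup_quotient N
  exact not_finite G

theorem odd_of_finite_centralizers {G : Type u} [Group G] [Infinite G] (hRF : ResFin G)
    (hmax : HasMax G) (htor : ∀ g : G, IsOfFinOrder g)
    (hC : ∀ h : G, h ≠ 1 → Finite (centralizer ({h} : Set G))) (h : G) : Odd (orderOf h) := by
  by_contra hodd
  rw [Nat.not_odd_iff_even] at hodd
  obtain ⟨k, hk⟩ := hodd
  have hpos : 0 < orderOf h := (htor h).orderOf_pos
  have hne : h ^ k ≠ 1 := by
    intro e
    have := Nat.le_of_dvd (by omega) (orderOf_dvd_of_pow_eq_one e)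
    omega
  refine invol hRF hmax htor (h ^ k) ?_ (hC _ hne)
  rw [← pow_add, ← hk, pow_orderOf_eq_one]

theorem infinite_conj {G : Type u} [Group G] (h : G)
    (hS : ¬ (centralizer ({h} : Set G)).FiniteIndex) : (conjugatesOf h).Infinite := by
  intro hfin
  apply hS
  have : Finite (conjugatesOf h) := hfin
  have : Finite (G ⧸ centralizer ({h} : Set G)) := by
    refine Finite.of_injective (β := conjugatesOf h)
      (Quotient.lift (fun g : G => (⟨g * h * g⁻¹, (isConj_iff.2 ⟨g, rfl⟩ : IsConj h (g * h * g⁻¹))⟩ :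
        conjugatesOf h)) ?_) ?_
    · intro a b hab
      have h1 : a⁻¹ * b ∈ centralizer ({h} : Set G) := QuotientGroup.leftRel_apply.1 hab
      have h2 : h * (a⁻¹ * b) = (a⁻¹ * b) * h := mem_centralizer_iff.1 h1 h rfl
      apply Subtype.ext
      change a * h * a⁻¹ = b * h * b⁻¹
      calc a * h * a⁻¹ = a * (h * (a⁻¹ * b)) * b⁻¹ := by group
        _ = a * ((a⁻¹ * b) * h) * b⁻¹ := by rw [h2]
        _ = b * h * b⁻¹ := by group
    · intro a' b'
      refine Quotient.inductionOn₂ a' b' (fun a b hab => ?_)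
      have h1 : a * h * a⁻¹ = b * h * b⁻¹ := congrArg Subtype.val hab
      apply Quotient.sound
      change QuotientGroup.leftRel _ a b
      rw [QuotientGroup.leftRel_apply, mem_centralizer_iff]
      intro y hy
      rw [Set.mem_singleton_iff] at hy
      subst hy
      calc y * (a⁻¹ * b) = a⁻¹ * (a * y * a⁻¹) * b := by group
        _ = a⁻¹ * (b * y * b⁻¹) * b := by rw [h1]
        _ = a⁻¹ * b * y := by group
  exact Subgroup.finiteIndex_of_finite_quotient

end Pool.Agent.MP_f5d2e4_al
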