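import Pool.Agent.RSG.E

set_option autoImplicit false

namespace Pool.Agent.MP_f5d2e4_al

open Subgroup

universe u

variable {Q T : (K : Type u) → [Group K] → Prop}

/-- residually `Q` -/
def Residually (Q : (K : Type u) → [Group K] → Prop) (G : Type u) [Group G] : Prop :=
  ∀ g : G, g ≠ 1 → ∃ (L : Type u) (_ : Group L) (ψ : G →* L), Q L ∧ ψ g ≠ 1

/-- the setting: a class `Q` closed under subgroups, quotients, extensions, and a class `T` closed
under subgroups and quotients such that abelian `T`-groups with the maximal condition are in `Q` -/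
structure Ctx (Q T : (K : Type u) → [Group K] → Prop) : Prop where
  q : QProp Q
  tinj : ∀ {K L : Type u} [Group K] [Group L] (f : K →* L), Function.Injective f → T L → T K
  tsurj : ∀ {K L : Type u} [Group K] [Group L] (f : K →* L), Function.Surjective f → T K → T L
  ab : ∀ {K : Type u} [Group K], HasMax K → T K → (∀ a b : K, a * b = b * a) → Q K

theorem Residually.of_injective {G H : Type u} [Group G] [Group H] (h : Residually Q G) (f : H →* G)
    (hf : Function.Injective f) : Residually Q H := by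
  intro g hg
  obtain ⟨L, iL, ψ, hL, hψ⟩ := h (f g) (fun e => hg (hf (by rw [e, map_one])))
  exact ⟨L, iL, ψ.comp f, hL, hψ⟩

theorem Residually.quot_centralizer (hQ : QProp Q) {G : Type u} [Group G] (h : Residually Q G) (X : Subgroup G)
    [hX : X.Normal] : Residually Q (G ⧸ centralizer (X : Set G)) := by
  intro q hq
  obtain ⟨g, rfl⟩ := QuotientGroup.mk'_surjective (centralizer (X : Set G)) q
  have hg : g ∉ centralizer (X : Set G) := fun e => hq ((QuotientGroup.eq_one_iff g).2 e)
  rw [mem_centralizer_iff] at hg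
  push Not at hg
  obtain ⟨a, ha, hne⟩ := hg
  have hne' : a * g * a⁻¹ * g⁻¹ ≠ 1 := by
    intro e
    exact hne (mul_inv_eq_iff_eq_mul.1 (mul_inv_eq_one.1 e))
  obtain ⟨L, iL, ψ, hL, hψ⟩ := h _ hne'
  have hL1 : Q ψ.range := hQ.inj ψ.range.subtype ψ.range.subtype_injective hL
  let ψ1 : G →* ψ.range := ψ.rangeRestrict
  have hψ1 : Function.Surjective ψ1 := ψ.rangeRestrict_surjective
  have hXn : (X.map ψ1).Normal := hX.map _ hψ1
  let P := centralizer ((X.map ψ1 : Subgroup ψ.range) : Set ψ.range)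
  have hP : P.Normal := inferInstance
  refine ⟨ψ.range ⧸ P, inferInstance,
    QuotientGroup.lift (centralizer (X : Set G)) ((QuotientGroup.mk' P).comp ψ1) ?_, ?_, ?_⟩
  · intro x hx
    change QuotientGroup.mk' P (ψ1 x) = 1
    refine (QuotientGroup.eq_one_iff (ψ1 x)).2 ?_
    rw [mem_centralizer_iff]
    intro y hy
    obtain ⟨z, hz, rfl⟩ := mem_map.1 hy
    rw [← map_mul, ← map_mul, mem_centralizer_iff.1 hx z hz]
  · exact hQ.surj (QuotientGroup.mk' P) (QuotientGroup.mk'_surjective P) hL1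
  · intro e
    have e1 : QuotientGroup.mk' P (ψ1 g) = 1 := e
    have e2 : ψ1 g ∈ P := (QuotientGroup.eq_one_iff (ψ1 g)).1 e1
    have e3 : ψ1 a * ψ1 g = ψ1 g * ψ1 a := mem_centralizer_iff.1 e2 _ (mem_map_of_mem ψ1 ha)
    have e4 : ψ a * ψ g = ψ g * ψ a := congrArg Subtype.val e3
    apply hψ
    rw [map_mul, map_mul, map_mul, map_inv, map_inv, e4]
    group

/-- the section-minimal example -/
theorem Ctx.exists_min (c : Ctx Q T) {G : Type u} [Group G] (hmax : HasMax G) (hT : T G)
    (hR : Residually Q G) (hn : ¬ Q G) :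
    ∃ (X : Subgroup G) (H : Type u) (_ : Group H) (f : X →* H), Function.Surjective f ∧
      HasMax H ∧ T H ∧ Residually Q H ∧ ¬ Q H ∧
      ∀ (K : Subgroup H) (N : Subgroup K) [N.Normal], N ≠ ⊥ → Residually Q (K ⧸ N) → Q (K ⧸ N) := by
  have hwf := hmax.wf
  let 𝒴 : Set (Subgroup G) := {Y | ∃ (X : Subgroup G) (H : Type u) (_ : Group H) (f : X →* H),
    Function.Surjective f ∧ f.ker.map X.subtype = Y ∧ Residually Q H ∧ ¬ Q H}
  have hne : 𝒴.Nonempty := by
    refine ⟨_, ⊤, G, inferInstance, (⊤ : Subgroup G).subtype, ?_, rfl, hR, hn⟩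
    intro x
    exact ⟨⟨x, mem_top x⟩, rfl⟩
  obtain ⟨Y, ⟨X, H, iH, f, hf, hY, hRH, hnH⟩, hmaxY⟩ := WellFounded.has_min hwf.wf 𝒴 hne
  refine ⟨X, H, iH, f, hf, ?_, ?_, hRH, hnH, ?_⟩
  · exact (hmax.of_injective X.subtype X.subtype_injective).of_surjective f hf
  · exact c.tsurj f hf (c.tinj X.subtype X.subtype_injective hT)
  intro K N hN hN1 hRN
  by_contra hQN
  -- the section `K ⧸ N` of `G`
  let X' : Subgroup G := (K.comap f).map X.subtype
  have hX' : ∀ x : X', ∃ hx : (x : G) ∈ X, f ⟨x, hx⟩ ∈ K := by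
    intro x
    obtain ⟨y, hy, hyx⟩ := mem_map.1 x.2
    have hx : (x : G) ∈ X := by rw [← hyx]; exact y.2
    refine ⟨hx, ?_⟩
    have : (⟨x, hx⟩ : X) = y := Subtype.ext hyx.symm
    rw [this]
    exact hy
  have hX'X : ∀ x : X', (x : G) ∈ X := fun x => (hX' x).1
  let f' : X' →* K :=
    { toFun := fun x => ⟨f ⟨x, hX'X x⟩, (hX' x).2⟩
      map_one' := by
        apply Subtype.ext
        change f ⟨((1 : X') : G), _⟩ = 1
        exact map_one f
      map_mul' := by
        intro x y
        apply Subtype.ext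
        exact map_mul f ⟨x, hX'X x⟩ ⟨y, hX'X y⟩ }
  have hf' : Function.Surjective f' := by
    intro k
    obtain ⟨x, hx⟩ := hf k
    have hxK : f x ∈ K := by rw [hx]; exact k.2
    exact ⟨⟨(x : G), mem_map_of_mem X.subtype (K := K.comap f) hxK⟩, Subtype.ext hx⟩
  let F : X' →* K ⧸ N := (QuotientGroup.mk' N).comp f'
  have hF : Function.Surjective F := (QuotientGroup.mk'_surjective N).comp hf'
  have hmem : F.ker.map X'.subtype ∈ 𝒴 :=
    ⟨X', K ⧸ N, inferInstance, F, hF, rfl, hRN, hQN⟩
  apply hmaxY _ hmem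
  change Y < F.ker.map X'.subtype
  rw [SetLike.lt_iff_le_and_exists]
  constructor
  · rw [← hY]
    intro x hx
    obtain ⟨y, hy, rfl⟩ := mem_map.1 hx
    have hy1 : f y = 1 := hy
    have hyK : f y ∈ K := by rw [hy1]; exact one_mem K
    refine mem_map.2 ⟨⟨(y : G), mem_map_of_mem X.subtype (K := K.comap f) hyK⟩, ?_, rfl⟩
    rw [MonoidHom.mem_ker]
    change QuotientGroup.mk' N ⟨f y, _⟩ = 1
    have : (⟨f y, hyK⟩ : K) = 1 := Subtype.ext hy1
    rw [this, map_one]
  · obtain ⟨n, hnN, hn1⟩ : ∃ n ∈ N, n ≠ 1 := by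
      by_contra hcon
      push Not at hcon
      exact hN1 ((eq_bot_iff_forall N).2 hcon)
    obtain ⟨x, hx⟩ := hf (n : H)
    have hxK : f x ∈ K := by rw [hx]; exact n.2
    refine ⟨(x : G), mem_map.2 ⟨⟨(x : G), mem_map_of_mem X.subtype (K := K.comap f) hxK⟩, ?_, rfl⟩,
      ?_⟩
    · rw [MonoidHom.mem_ker]
      change QuotientGroup.mk' N ⟨f x, _⟩ = 1
      have : (⟨f x, hxK⟩ : K) = n := Subtype.ext hx
      rw [this]
      exact (QuotientGroup.eq_one_iff n).2 hnN
    · rw [← hY]
      intro hxY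
      obtain ⟨y, hy, hyx⟩ := mem_map.1 hxY
      have hyx' : y = x := Subtype.ext hyx
      apply hn1
      apply Subtype.ext
      have hy1 : f y = 1 := hy
      rw [← hx, ← hyx', hy1]
      rfl

/-- hereditary minimality of `H` -/
def HMin (Q : (K : Type u) → [Group K] → Prop) (H : Type u) [Group H] : Prop :=
  ∀ (K : Subgroup H) (N : Subgroup K) [N.Normal], N ≠ ⊥ → Residually Q (K ⧸ N) → Q (K ⧸ N)

theorem Ctx.centralizer_eq_bot (c : Ctx Q T) {H : Type u} [Group H] (hmax : HasMax H) (hT : T H)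
    (hR : Residually Q H) (hA : HMin Q H) (K : Subgroup H) (hK : ¬ Q K) (N : Subgroup K) [hN : N.Normal]
    (hN1 : N ≠ ⊥) : centralizer (N : Set K) = ⊥ := by
  by_contra hC1
  set C : Subgroup K := centralizer (N : Set K) with hC
  have hCn : C.Normal := inferInstance
  set D : Subgroup K := centralizer (C : Set K) with hD
  have hDn : D.Normal := inferInstance
  have hRK : Residually Q K := hR.of_injective K.subtype K.subtype_injective
  have hND : N ≤ D := by
    intro n hn
    rw [hD, mem_centralizer_iff]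
    intro x hx
    exact (mem_centralizer_iff.1 hx n hn).symm
  have hD1 : D ≠ ⊥ := fun e => hN1 (le_bot_iff.1 (e ▸ hND))
  have h1 : Q (K ⧸ C) := hA K C hC1 (hRK.quot_centralizer c.q N)
  have h2 : Q (K ⧸ D) := hA K D hD1 (hRK.quot_centralizer c.q C)
  apply hK
  refine c.q.ext (QuotientGroup.mk' C) ?_ h1
  rw [QuotientGroup.ker_mk']
  refine c.q.ext ((QuotientGroup.mk' D).comp C.subtype) ?_ h2
  have hinjC : Function.Injective (K.subtype.comp C.subtype) :=
    K.subtype_injective.comp C.subtype_injective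
  have hinj : Function.Injective ((K.subtype.comp C.subtype).comp
      ((QuotientGroup.mk' D).comp C.subtype).ker.subtype) :=
    hinjC.comp (Subgroup.subtype_injective _)
  refine c.ab (hmax.of_injective _ hinj) (c.tinj _ hinj hT) ?_
  intro a b
  have hb : ((b : C) : K) ∈ D := (QuotientGroup.eq_one_iff _).1 b.2
  apply Subtype.ext
  apply Subtype.ext
  exact mem_centralizer_iff.1 hb _ (a : C).2

theorem Ctx.centralizer_Q (c : Ctx Q T) {H : Type u} [Group H] (hmax : HasMax H) (hT : T H)
    (hR : Residually Q H) (hA : HMin Q H) (h : H) (hh : h ≠ 1) : Q (centralizer ({h} : Set H)) := by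
  by_contra hK
  set K := centralizer ({h} : Set H) with hKdef
  have hhK : h ∈ K := by
    rw [hKdef, mem_centralizer_iff]
    intro y hy
    rw [Set.mem_singleton_iff] at hy
    rw [hy]
  set h' : K := ⟨h, hhK⟩ with hh'
  have hcen : ∀ x : K, x * h' = h' * x := by
    intro x
    apply Subtype.ext
    exact (mem_centralizer_iff.1 x.2 h rfl).symm
  have hZ : h' ∈ center K := mem_center_iff.2 hcen
  have hZ1 : center K ≠ ⊥ := by
    intro e
    rw [e, mem_bot] at hZ
    exact hh (congrArg Subtype.val hZ)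
  have h1 := c.centralizer_eq_bot hmax hT hR hA K hK (center K) hZ1
  have h2 : h' ∈ centralizer ((center K : Subgroup K) : Set K) := by
    rw [mem_centralizer_iff]
    intro y hy
    exact (mem_center_iff.1 hy h').symm
  rw [h1, mem_bot] at h2
  exact hh (congrArg Subtype.val h2)

/-- nontrivial normal subgroups meet nontrivially -/
theorem Ctx.inf_ne_bot (c : Ctx Q T) {H : Type u} [Group H] (hmax : HasMax H) (hT : T H)
    (hR : Residually Q H) (hA : HMin Q H) (K : Subgroup H) (hK : ¬ Q K) (M N : Subgroup K)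
    [hM : M.Normal] [hN : N.Normal] (hM1 : M ≠ ⊥) (hN1 : N ≠ ⊥) : M ⊓ N ≠ ⊥ := by
  intro e
  apply hN1
  rw [eq_bot_iff, ← c.centralizer_eq_bot hmax hT hR hA K hK M hM1]
  have h1 : ⁅M, N⁆ = ⊥ := by
    rw [eq_bot_iff, ← e]
    exact commutator_le_inf M N
  rw [commutator_comm] at h1
  exact commutator_eq_bot_iff_le_centralizer.1 h1

end Pool.Agent.MP_f5d2e4_al
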