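import Pool.Agent.RSG.F

set_option autoImplicit false

namespace Pool.Agent.MP_f5d2e4_al

open Subgroup

universe u

variable {Q T : (K : Type u) → [Group K] → Prop}

theorem ctx_solvable : Ctx.{u} (fun K _ => Group.IsSolvable K) (fun _ _ => True) where
  q := qprop_solvable
  tinj := fun _ _ _ => trivial
  tsurj := fun _ _ _ => trivial
  ab := fun _ _ h => Group.isSolvable_of_comm h

theorem ctx_finite : Ctx.{u} (fun K _ => Finite K) (fun K _ => ∀ g : K, IsOfFinOrder g) where
  q := qprop_finite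
  tinj := fun f hf h g => (Function.Injective.isOfFinOrder_iff (f := f) hf).1 (h (f g))
  tsurj := fun f hf h g => by
    obtain ⟨x, rfl⟩ := hf g
    exact f.isOfFinOrder (h x)
  ab := fun h1 h2 h3 => finite_of_abelian h1 h2 h3

/-- the last nontrivial term of the derived series -/
theorem exists_abelian_char {K : Type u} [Group K] (N : Subgroup K) [hN : N.Normal] (hN1 : N ≠ ⊥)
    (hs : Group.IsSolvable N) : ∃ A : Subgroup K, A.Normal ∧ A ≠ ⊥ ∧ A ≤ N ∧
      A ≤ centralizer (A : Set K) := by
  classical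
  have h := (isSolvable_iff_dser N).1 hs
  set n := Nat.find h with hn
  have h1 : dser N n = ⊥ := Nat.find_spec h
  have hmin : ∀ m < n, dser N m ≠ ⊥ := fun m hm => Nat.find_min h hm
  obtain ⟨m, hm⟩ : ∃ m, n = m + 1 := by
    rcases n with _ | m
    · exact absurd h1 hN1
    · exact ⟨m, rfl⟩
  refine ⟨dser N m, dser_normal N m, hmin m (by omega), ?_, ?_⟩
  · clear h1 hmin hm hn
    induction m with
    | zero => exact le_rfl
    | succ m ih =>
      have : (dser N m).Normal := dser_normal N m
      exact (commutator_le_left _ _).trans ih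
  · rw [← commutator_eq_bot_iff_le_centralizer]
    rw [hm] at h1
    exact h1

/-- normalisers of soluble subgroups are soluble -/
theorem normalizer_solvable {H : Type u} [Group H] (hmax : HasMax H)
    (hR : Residually (fun K _ => Group.IsSolvable K) H) (hA : HMin (fun K _ => Group.IsSolvable K) H)
    (S : Subgroup H) (hS1 : S ≠ ⊥) (hS : Group.IsSolvable S) :
    Group.IsSolvable (normalizer (S : Set H)) := by
  by_contra hK
  set K := normalizer (S : Set H) with hKdef
  set N : Subgroup K := S.subgroupOf K with hN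
  have hNn : N.Normal := normal_in_normalizer
  have hSK : S ≤ K := le_normalizer
  have hN1 : N ≠ ⊥ := by
    intro e
    rw [hN, subgroupOf_eq_bot, disjoint_iff, inf_eq_left.2 hSK] at e
    exact hS1 e
  have hNs : Group.IsSolvable N := by
    exact Group.isSolvable_of_isSolvable_injective
      (f := (Subgroup.subgroupOfEquivOfLe hSK).toMonoidHom)
      (Subgroup.subgroupOfEquivOfLe hSK).injective
  obtain ⟨A, hAn, hA1, -, hAA⟩ := exists_abelian_char N hN1 hNs
  have h1 := ctx_solvable.centralizer_eq_bot hmax trivial hR hA K hK A hA1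
  rw [h1] at hAA
  exact hA1 (le_bot_iff.1 hAA)

theorem mulEquiv_conj_ne {G : Type u} [Group G] (h : G) (hS : (conjugatesOf h).Finite) :
    (centralizer ({h} : Set G)).FiniteIndex := by
  by_contra hne
  exact infinite_conj h hne hS

/-- normalisers of finite subgroups are finite -/
theorem normalizer_finite {H : Type u} [Group H] (hmax : HasMax H) (hT : ∀ g : H, IsOfFinOrder g)
    (hR : Residually (fun K _ => Finite K) H) (hA : HMin (fun K _ => Finite K) H)
    (S : Subgroup H) (hS1 : S ≠ ⊥) (hS : Finite S) : Finite (normalizer (S : Set H)) := by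
  by_contra hK
  set K := normalizer (S : Set H) with hKdef
  have hKinf : Infinite K := not_finite_iff_infinite.1 hK
  obtain ⟨s, hs, hs1⟩ : ∃ s ∈ S, s ≠ 1 := by
    by_contra hcon
    push Not at hcon
    exact hS1 ((eq_bot_iff_forall S).2 hcon)
  have hsK : s ∈ K := le_normalizer hs
  have hfin : (conjugatesOf (⟨s, hsK⟩ : K)).Finite := by
    have h1 : (conjugatesOf (⟨s, hsK⟩ : K)) ⊆ (Subtype.val : K → H) ⁻¹' (S : Set H) := by
      intro x hx
      obtain ⟨c, hc⟩ := isConj_iff.1 hx
      have h2 : ((c : H) * s * (c : H)⁻¹) ∈ S := (mem_normalizer_iff.1 c.2 s).1 hs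
      have h3 : (x : H) = (c : H) * s * (c : H)⁻¹ := by rw [← hc]; rfl
      change (x : H) ∈ S
      rw [h3]
      exact h2
    have hSf : (S : Set H).Finite := hS
    exact (hSf.preimage Subtype.val_injective.injOn).subset h1
  have hfi := mulEquiv_conj_ne _ hfin
  have hcf : Finite (centralizer ({(⟨s, hsK⟩ : K)} : Set K)) := by
    have h4 := ctx_finite.centralizer_Q hmax hT hR hA s hs1
    refine Finite.of_injective (β := centralizer ({s} : Set H))
      (fun x => ⟨((x : K) : H), ?_⟩) ?_
    · rw [mem_centralizer_iff]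
      intro y hy
      rw [Set.mem_singleton_iff] at hy
      subst hy
      exact congrArg Subtype.val (mem_centralizer_iff.1 x.2 ⟨y, hsK⟩ rfl)
    · intro x y hxy
      have : ((x : K) : H) = ((y : K) : H) :=
        congrArg (fun z : centralizer ({s} : Set H) => (z : H)) hxy
      exact Subtype.ext (Subtype.ext this)
  have : Finite (K ⧸ centralizer ({(⟨s, hsK⟩ : K)} : Set K)) := inferInstance
  exact hK (Finite.of_subgroup_quotient (centralizer ({(⟨s, hsK⟩ : K)} : Set K)))

/-- every proper quotient of a subgroup has a stationary derived series -/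
theorem derived_stable {H : Type u} [Group H] (hA : HMin (fun K _ => Group.IsSolvable K) H)
    (K : Subgroup H) (N : Subgroup K) [hN : N.Normal] (hN1 : N ≠ ⊥) :
    ∃ m, derivedSeries (K ⧸ N) (m + 1) = derivedSeries (K ⧸ N) m := by
  set R : Subgroup (K ⧸ N) := ⨅ n, derivedSeries (K ⧸ N) n with hR
  have hRn : R.Normal := by
    rw [hR]
    exact normal_iInf_normal fun n => derivedSeries_normal _ n
  set M : Subgroup K := R.comap (QuotientGroup.mk' N) with hM
  have hMn : M.Normal := hRn.comap _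
  have hNM : N ≤ M := by
    intro x hx
    rw [hM, mem_comap]
    have : QuotientGroup.mk' N x = 1 := (QuotientGroup.eq_one_iff x).2 hx
    rw [this]
    exact one_mem _
  have hM1 : M ≠ ⊥ := fun e => hN1 (le_bot_iff.1 (e ▸ hNM))
  have hRM : Residually (fun K _ => Group.IsSolvable K) (K ⧸ M) := by
    intro q hq
    obtain ⟨g, rfl⟩ := QuotientGroup.mk'_surjective M q
    have hg : g ∉ M := fun e => hq ((QuotientGroup.eq_one_iff g).2 e)
    have hg' : QuotientGroup.mk' N g ∉ R := hg
    rw [hR, mem_iInf] at hg'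
    push Not at hg'
    obtain ⟨n, hn⟩ := hg'
    have hdn : (derivedSeries (K ⧸ N) n).Normal := derivedSeries_normal _ n
    refine ⟨(K ⧸ N) ⧸ derivedSeries (K ⧸ N) n, inferInstance,
      QuotientGroup.lift M ((QuotientGroup.mk' (derivedSeries (K ⧸ N) n)).comp
        (QuotientGroup.mk' N)) ?_, ?_, ?_⟩
    · intro x hx
      refine (QuotientGroup.eq_one_iff (QuotientGroup.mk' N x)).2 ?_
      exact (iInf_le (fun n => derivedSeries (K ⧸ N) n) n) hx
    · refine ⟨⟨n, ?_⟩⟩
      rw [← map_derivedSeries_eq (QuotientGroup.mk'_surjective (derivedSeries (K ⧸ N) n)) n,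
        Subgroup.map_eq_bot_iff, QuotientGroup.ker_mk']
    · intro e
      exact hn ((QuotientGroup.eq_one_iff (QuotientGroup.mk' N g)).1 e)
  have hsol : Group.IsSolvable (K ⧸ M) := hA K M hM1 hRM
  obtain ⟨m, hm⟩ := (Group.isSolvable_def _).1 hsol
  refine ⟨m, le_antisymm (derivedSeries_antitone _ (Nat.le_succ m)) ?_⟩
  have h1 : derivedSeries (K ⧸ N) m ≤ R := by
    intro d hd
    obtain ⟨k, rfl⟩ := QuotientGroup.mk'_surjective N d
    let θ : K ⧸ N →* K ⧸ M := QuotientGroup.map N M (MonoidHom.id K) hNM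
    have h2 : θ (QuotientGroup.mk' N k) ∈ derivedSeries (K ⧸ M) m :=
      map_derivedSeries_le_derivedSeries θ m (mem_map_of_mem θ hd)
    rw [hm, mem_bot] at h2
    exact (QuotientGroup.eq_one_iff k).1 h2
  exact h1.trans (iInf_le _ (m + 1))

/-- every proper quotient of a subgroup has a smallest subgroup of finite index -/
theorem finite_residual {H : Type u} [Group H] (hA : HMin (fun K _ => Finite K) H)
    (K : Subgroup H) (N : Subgroup K) [hN : N.Normal] (hN1 : N ≠ ⊥) :
    ∃ R : Subgroup (K ⧸ N), R.FiniteIndex ∧ ∀ P : Subgroup (K ⧸ N), P.FiniteIndex → R ≤ P := by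
  set R : Subgroup (K ⧸ N) :=
    ⨅ P : {P : Subgroup (K ⧸ N) // P.Normal ∧ P.FiniteIndex}, (P : Subgroup (K ⧸ N)) with hR
  have hRn : R.Normal := by
    rw [hR]
    exact normal_iInf_normal fun P => P.2.1
  have hRle : ∀ P : Subgroup (K ⧸ N), P.Normal → P.FiniteIndex → R ≤ P := fun P h1 h2 =>
    iInf_le (fun P : {P : Subgroup (K ⧸ N) // P.Normal ∧ P.FiniteIndex} =>
      (P : Subgroup (K ⧸ N))) ⟨P, h1, h2⟩
  set M : Subgroup K := R.comap (QuotientGroup.mk' N) with hM
  have hMn : M.Normal := hRn.comap _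
  have hNM : N ≤ M := by
    intro x hx
    rw [hM, mem_comap]
    have : QuotientGroup.mk' N x = 1 := (QuotientGroup.eq_one_iff x).2 hx
    rw [this]
    exact one_mem _
  have hM1 : M ≠ ⊥ := fun e => hN1 (le_bot_iff.1 (e ▸ hNM))
  have hRM : Residually (fun K _ => Finite K) (K ⧸ M) := by
    intro q hq
    obtain ⟨g, rfl⟩ := QuotientGroup.mk'_surjective M q
    have hg : g ∉ M := fun e => hq ((QuotientGroup.eq_one_iff g).2 e)
    have hg' : QuotientGroup.mk' N g ∉ R := hg
    rw [hR, mem_iInf] at hg'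
    push Not at hg'
    obtain ⟨⟨P, hPn, hPf⟩, hP⟩ := hg'
    refine ⟨(K ⧸ N) ⧸ P, inferInstance,
      QuotientGroup.lift M ((QuotientGroup.mk' P).comp (QuotientGroup.mk' N)) ?_, ?_, ?_⟩
    · intro x hx
      refine (QuotientGroup.eq_one_iff (QuotientGroup.mk' N x)).2 ?_
      exact hRle P hPn hPf hx
    · infer_instance
    · intro e
      exact hP ((QuotientGroup.eq_one_iff (QuotientGroup.mk' N g)).1 e)
  have hfin : Finite (K ⧸ M) := hA K M hM1 hRM
  refine ⟨R, ?_, ?_⟩
  · have hMf : M.FiniteIndex := Subgroup.finiteIndex_of_finite_quotient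
    constructor
    intro h0
    apply hMf.index_ne_zero
    rw [hM, Subgroup.index_comap_of_surjective _ (QuotientGroup.mk'_surjective N), h0]
  · intro P hP
    exact (hRle P.normalCore inferInstance inferInstance).trans P.normalCore_le

/-- every element of `M` has an order all of whose prime divisors lie in `π` -/
def PiGroup {K : Type u} [Group K] (π : Set ℕ) (M : Subgroup K) : Prop :=
  ∀ m ∈ M, ∀ p : ℕ, p.Prime → p ∣ orderOf m → p ∈ π

theorem pi_radical (hQ : QProp Q) {H : Type u} [Group H] (hmax : HasMax H)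
    (hT : ∀ g : H, IsOfFinOrder g)
    (hR : Residually Q H) (hA : HMin Q H) (π : Set ℕ) (K : Subgroup H) (M : Subgroup K) [hM : M.Normal]
    (hM1 : M ≠ ⊥) (hMπ : PiGroup π M) :
    ∃ M' : Subgroup K, M'.Normal ∧ M ≤ M' ∧ PiGroup π M' ∧ ∃ _ : M'.Normal, Q (K ⧸ M') := by
  have hwf := (hmax.of_injective K.subtype K.subtype_injective).wf
  have hRK : Residually Q K := hR.of_injective K.subtype K.subtype_injective
  have hTK : ∀ g : K, IsOfFinOrder g := fun g =>
    (Function.Injective.isOfFinOrder_iff (f := K.subtype) K.subtype_injective).1 (hT g)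
  obtain ⟨M', ⟨hn', hle, hπ'⟩, hmx⟩ := WellFounded.has_min hwf.wf
    {M' : Subgroup K | M'.Normal ∧ M ≤ M' ∧ PiGroup π M'} ⟨M, hM, le_rfl, hMπ⟩
  refine ⟨M', hn', hle, hπ', hn', ?_⟩
  have hM'1 : M' ≠ ⊥ := fun e => hM1 (le_bot_iff.1 (e ▸ hle))
  refine hA K M' hM'1 ?_
  intro q hq
  obtain ⟨g, rfl⟩ := QuotientGroup.mk'_surjective M' q
  have hg : g ∉ M' := fun e => hq ((QuotientGroup.eq_one_iff g).2 e)
  set P : Subgroup K := M' ⊔ normalClosure {g} with hP
  have hPn : P.Normal := inferInstance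
  have hlt : M' < P := by
    refine lt_of_le_of_ne le_sup_left (fun e => hg ?_)
    have h1 : g ∈ P := (le_sup_right : normalClosure {g} ≤ P) (subset_normalClosure rfl)
    exact e.symm.le h1
  have hPπ : ¬ PiGroup π P := fun h => hmx P ⟨hPn, hle.trans hlt.le, h⟩ hlt
  unfold PiGroup at hPπ
  push Not at hPπ
  obtain ⟨y, hy, p, hp, hpy, hpπ⟩ := hPπ
  have hypos : 0 < orderOf y := (hTK y).orderOf_pos
  set z := y ^ (orderOf y / p) with hz
  have hzo : orderOf z = p := by
    rw [hz, orderOf_pow_of_dvd (by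
      have := Nat.le_of_dvd hypos hpy
      exact (Nat.div_pos this hp.pos).ne') (Nat.div_dvd_of_dvd hpy)]
    exact Nat.div_div_self hpy hypos.ne'
  have hzP : z ∈ P := pow_mem hy _
  have hz1 : z ≠ 1 := by
    intro e
    rw [e, orderOf_one] at hzo
    exact hp.one_lt.ne hzo
  obtain ⟨L, iL, ψ, hL, hψ⟩ := hRK z hz1
  have hL1 : Q ψ.range := hQ.inj ψ.range.subtype ψ.range.subtype_injective hL
  let ψ1 : K →* ψ.range := ψ.rangeRestrict
  have hψ1 : Function.Surjective ψ1 := ψ.rangeRestrict_surjective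
  have hXn : (M'.map ψ1).Normal := hn'.map _ hψ1
  refine ⟨ψ.range ⧸ M'.map ψ1, inferInstance,
    QuotientGroup.lift M' ((QuotientGroup.mk' (M'.map ψ1)).comp ψ1) ?_,
    hQ.surj (QuotientGroup.mk' _) (QuotientGroup.mk'_surjective _) hL1, ?_⟩
  · intro x hx
    exact (QuotientGroup.eq_one_iff (ψ1 x)).2 (mem_map_of_mem ψ1 hx)
  · intro e
    have e1 : ψ1 g ∈ M'.map ψ1 := (QuotientGroup.eq_one_iff (ψ1 g)).1 e
    have hcn : ((M'.map ψ1).comap ψ1).Normal := hXn.comap _
    have h1 : P ≤ (M'.map ψ1).comap ψ1 := by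
      rw [hP, sup_le_iff]
      refine ⟨le_comap_map _ _, normalClosure_le_normal ?_⟩
      intro x hx
      rw [Set.mem_singleton_iff] at hx
      subst hx
      exact e1
    obtain ⟨m, hm, hmz⟩ := mem_map.1 (h1 hzP)
    have h2 : orderOf (ψ1 z) ∣ p := by
      rw [← hzo]
      exact orderOf_map_dvd ψ1 z
    have h3 : ψ1 z ≠ 1 := by
      intro e2
      exact hψ (congrArg Subtype.val e2)
    have h4 : orderOf (ψ1 z) = p := by
      rcases (Nat.dvd_prime hp).1 h2 with h | h
      · exact absurd (orderOf_eq_one_iff.1 h) h3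
      · exact h
    have h5 : p ∣ orderOf m := by
      rw [← h4, ← hmz]
      exact orderOf_map_dvd ψ1 m
    exact hpπ (hπ' m hm p hp h5)

theorem resSol_iff {G : Type u} [Group G] :
    ResSol G ↔ Residually (fun K _ => Group.IsSolvable K) G := by
  constructor
  · intro h g hg
    obtain ⟨n, hn⟩ := h g hg
    have hdn : (derivedSeries G n).Normal := derivedSeries_normal _ n
    refine ⟨G ⧸ derivedSeries G n, inferInstance, QuotientGroup.mk' _, ⟨⟨n, ?_⟩⟩, fun e => hn ?_⟩
    · rw [← map_derivedSeries_eq (QuotientGroup.mk'_surjective (derivedSeries G n)) n,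
        Subgroup.map_eq_bot_iff, QuotientGroup.ker_mk']
    · exact (QuotientGroup.eq_one_iff g).1 e
  · intro h g hg
    obtain ⟨L, iL, ψ, hL, hψ⟩ := h g hg
    obtain ⟨n, hn⟩ := (Group.isSolvable_def _).1 hL
    refine ⟨n, fun hm => hψ ?_⟩
    have := map_derivedSeries_le_derivedSeries ψ n (mem_map_of_mem ψ hm)
    rw [hn, mem_bot] at this
    exact this

theorem resFin_iff {G : Type u} [Group G] :
    ResFin G ↔ Residually (fun K _ => Finite K) G := by
  constructor
  · intro h g hg
    obtain ⟨N, hN, hf, hn⟩ := h g hg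
    exact ⟨G ⧸ N, inferInstance, QuotientGroup.mk' _, inferInstance,
      fun e => hn ((QuotientGroup.eq_one_iff g).1 e)⟩
  · intro h g hg
    obtain ⟨L, iL, ψ, hL, hψ⟩ := h g hg
    refine ⟨ψ.ker, inferInstance, ?_, hψ⟩
    have : Finite (G ⧸ ψ.ker) := Finite.of_injective _ (QuotientGroup.kerLift_injective ψ)
    exact Subgroup.finiteIndex_of_finite_quotient

end Pool.Agent.MP_f5d2e4_al
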