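import Pool.Agent.RSG.G

set_option autoImplicit false

namespace Pool.Agent.MP_f5d2e4_al

open Subgroup

universe u

variable {Q T : (K : Type u) → [Group K] → Prop}

/-- `H` is a section of `G` with denominator `Y` -/
def SecY {G : Type u} [Group G] (Y : Subgroup G) (H : Type u) [Group H] : Prop :=
  ∃ (X : Subgroup G) (f : X →* H), Function.Surjective f ∧ f.ker.map X.subtype = Y

theorem SecY.sub {G : Type u} [Group G] {Y : Subgroup G} {H : Type u} [Group H]
    (h : SecY Y H) (K : Subgroup H) : SecY Y K := by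
  obtain ⟨X, f, hf, hY⟩ := h
  let X' : Subgroup G := (K.comap f).map X.subtype
  have hX' : ∀ x : X', ∃ hx : (x : G) ∈ X, f ⟨x, hx⟩ ∈ K := by
    intro x
    obtain ⟨y, hy, hyx⟩ := mem_map.1 x.2
    have hx : (x : G) ∈ X := by rw [← hyx]; exact y.2
    refine ⟨hx, ?_⟩
    have : (⟨x, hx⟩ : X) = y := Subtype.ext hyx.symm
    rw [this]
    exact hy
  have hX'X : ∀ x : X', (x : G) ∈ X := fun x => (hX' x).1
  let f' : X' →* K :=
    { toFun := fun x => ⟨f ⟨x, hX'X x⟩, (hX' x).2⟩
      map_one' := by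
        apply Subtype.ext
        change f ⟨((1 : X') : G), _⟩ = 1
        exact map_one f
      map_mul' := by
        intro x y
        apply Subtype.ext
        exact map_mul f ⟨x, hX'X x⟩ ⟨y, hX'X y⟩ }
  refine ⟨X', f', ?_, ?_⟩
  · intro k
    obtain ⟨x, hx⟩ := hf k
    have hxK : f x ∈ K := by rw [hx]; exact k.2
    exact ⟨⟨(x : G), mem_map_of_mem X.subtype (K := K.comap f) hxK⟩, Subtype.ext hx⟩
  · rw [← hY]
    apply le_antisymm
    · intro x hx
      obtain ⟨y, hy, rfl⟩ := mem_map.1 hx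
      have hy1 : f ⟨(y : G), hX'X y⟩ = 1 := congrArg Subtype.val (MonoidHom.mem_ker.1 hy)
      exact mem_map.2 ⟨⟨(y : G), hX'X y⟩, hy1, rfl⟩
    · intro x hx
      obtain ⟨y, hy, rfl⟩ := mem_map.1 hx
      have hy1 : f y = 1 := hy
      have hyK : f y ∈ K := by rw [hy1]; exact one_mem K
      exact mem_map.2 ⟨⟨(y : G), mem_map_of_mem X.subtype (K := K.comap f) hyK⟩,
        Subtype.ext hy1, rfl⟩

theorem SecY.quot {G : Type u} [Group G] {Y : Subgroup G} {H : Type u} [Group H]
    (h : SecY Y H) (N : Subgroup H) [hN : N.Normal] (hN1 : N ≠ ⊥) :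
    ∃ Y', Y < Y' ∧ SecY Y' (H ⧸ N) := by
  obtain ⟨X, f, hf, hY⟩ := h
  let F : X →* H ⧸ N := (QuotientGroup.mk' N).comp f
  have hF : Function.Surjective F := (QuotientGroup.mk'_surjective N).comp hf
  refine ⟨F.ker.map X.subtype, ?_, X, F, hF, rfl⟩
  rw [SetLike.lt_iff_le_and_exists]
  constructor
  · rw [← hY]
    apply map_mono
    intro x hx
    rw [MonoidHom.mem_ker] at hx ⊢
    change QuotientGroup.mk' N (f x) = 1
    rw [hx, map_one]
  · obtain ⟨n, hnN, hn1⟩ : ∃ n ∈ N, n ≠ 1 := by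
      by_contra hcon
      push Not at hcon
      exact hN1 ((eq_bot_iff_forall N).2 hcon)
    obtain ⟨x, hx⟩ := hf n
    refine ⟨(x : G), mem_map.2 ⟨x, ?_, rfl⟩, ?_⟩
    · rw [MonoidHom.mem_ker]
      change QuotientGroup.mk' N (f x) = 1
      rw [hx]
      exact (QuotientGroup.eq_one_iff n).2 hnN
    · rw [← hY]
      intro hxY
      obtain ⟨y, hy, hyx⟩ := mem_map.1 hxY
      have hyx' : y = x := Subtype.ext hyx
      apply hn1
      have hy1 : f y = 1 := hy
      rw [← hx, ← hyx', hy1]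

theorem exists_Y {G : Type u} [Group G] (hmax : HasMax G) (hR : Residually Q G) (hn : ¬ Q G) :
    ∃ Y : Subgroup G, (∃ (H : Type u) (_ : Group H), SecY Y H ∧ Residually Q H ∧ ¬ Q H) ∧
      ∀ (H : Type u) [Group H], SecY Y H → HMin Q H := by
  have hwf := hmax.wf
  obtain ⟨Y, hY, hmx⟩ := WellFounded.has_min hwf.wf
    {Y : Subgroup G | ∃ (H : Type u) (_ : Group H), SecY Y H ∧ Residually Q H ∧ ¬ Q H}
    ⟨_, G, inferInstance, ⟨⊤, (⊤ : Subgroup G).subtype,
      fun x => ⟨⟨x, mem_top x⟩, rfl⟩, rfl⟩, hR, hn⟩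
  refine ⟨Y, hY, fun H _ hH K N hN hN1 hRN => ?_⟩
  by_contra hQN
  obtain ⟨Y', hlt, hsec⟩ := (hH.sub K).quot N hN1
  exact hmx Y' ⟨K ⧸ N, inferInstance, hsec, hRN, hQN⟩ hlt

theorem SecY.hasMax {G : Type u} [Group G] {Y : Subgroup G} {H : Type u} [Group H]
    (h : SecY Y H) (hmax : HasMax G) : HasMax H := by
  obtain ⟨X, f, hf, -⟩ := h
  exact (hmax.of_injective X.subtype X.subtype_injective).of_surjective f hf

theorem SecY.torsion {G : Type u} [Group G] {Y : Subgroup G} {H : Type u} [Group H]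
    (h : SecY Y H) (ht : ∀ g : G, IsOfFinOrder g) : ∀ g : H, IsOfFinOrder g := by
  obtain ⟨X, f, hf, -⟩ := h
  exact ctx_finite.tsurj f hf (ctx_finite.tinj X.subtype X.subtype_injective ht)

/-- the normaliser condition for finite `p`-groups, inside a group -/
theorem exists_normalizing {H : Type u} [Group H] {p : ℕ} [Fact p.Prime] (hp : IsPGroup p H)
    (A D : Subgroup H) [Finite A] (hDA : D ≤ A) (hne : D ≠ A) :
    ∃ a ∈ A, a ∉ D ∧ a ∈ normalizer (D : Set H) := by
  have hpA : IsPGroup p A := hp.to_subgroup A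
  have hnil : Group.IsNilpotent A := hpA.isNilpotent
  have hlt : D.subgroupOf A < ⊤ := by
    rw [lt_top_iff_ne_top]
    intro e
    rw [subgroupOf_eq_top] at e
    exact hne (le_antisymm hDA e)
  have h1 := Group.normalizerCondition_of_isNilpotent (G := A) (D.subgroupOf A) hlt
  obtain ⟨a, ha, haD⟩ := SetLike.exists_of_lt h1
  refine ⟨a, a.2, haD, ?_⟩
  rw [mem_normalizer_iff]
  intro x
  constructor
  · intro hx
    have := (mem_normalizer_iff.1 ha ⟨x, hDA hx⟩).1 hx
    exact this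
  · intro hx
    have hxA : x ∈ A := by
      have h2 : (a : H) * x * (a : H)⁻¹ ∈ A := hDA hx
      have h3 := mul_mem (mul_mem (inv_mem a.2) h2) a.2
      have h4 : (a : H)⁻¹ * ((a : H) * x * (a : H)⁻¹) * a = x := by group
      rwa [h4] at h3
    exact (mem_normalizer_iff.1 ha ⟨x, hxA⟩).2 hx

/-- in a `p`-group with the maximal condition in which finite nontrivial subgroups have finite
normalisers, distinct maximal finite subgroups meet trivially -/
theorem maximal_finite_TI {H : Type u} [Group H] (hmax : HasMax H) {p : ℕ} [Fact p.Prime]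
    (hp : IsPGroup p H)
    (hN : ∀ S : Subgroup H, S ≠ ⊥ → Finite S → Finite (normalizer (S : Set H)))
    (A B : Subgroup H) (hA : Maximal (fun S : Subgroup H => Finite S) A)
    (hB : Maximal (fun S : Subgroup H => Finite S) B) (hAB : A ≠ B) : A ⊓ B = ⊥ := by
  by_contra hne
  have hwf := hmax.wf
  obtain ⟨D, ⟨A, B, hA, hB, hAB, hD, hD1⟩, hmx⟩ := WellFounded.has_min hwf.wf
    {D : Subgroup H | ∃ A B : Subgroup H, Maximal (fun S : Subgroup H => Finite S) A ∧
      Maximal (fun S : Subgroup H => Finite S) B ∧ A ≠ B ∧ D = A ⊓ B ∧ D ≠ ⊥}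
    ⟨A ⊓ B, A, B, hA, hB, hAB, rfl, hne⟩
  have hAf : Finite A := hA.1
  have hBf : Finite B := hB.1
  have hDA : D ≤ A := by rw [hD]; exact inf_le_left
  have hDB : D ≤ B := by rw [hD]; exact inf_le_right
  have hDf : Finite D := Finite.of_injective _ (Subgroup.inclusion_injective hDA)
  have hNf : Finite (normalizer (D : Set H)) := hN D hD1 hDf
  obtain ⟨C, ⟨hNC, hCf⟩, hCm⟩ := WellFounded.has_min hwf.wf
    {S : Subgroup H | normalizer (D : Set H) ≤ S ∧ Finite S} ⟨_, le_rfl, hNf⟩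
  have hC : Maximal (fun S : Subgroup H => Finite S) C := by
    refine ⟨hCf, fun S hS hCS => ?_⟩
    by_contra hnot
    exact hCm S ⟨hNC.trans hCS, hS⟩ (lt_of_le_not_ge hCS hnot)
  have key : ∀ E : Subgroup H, Maximal (fun S : Subgroup H => Finite S) E → D ≤ E → D ≠ E →
      C = E := by
    intro E hE hDE hDne
    by_contra hCE
    have hEf : Finite E := hE.1
    obtain ⟨a, haE, haD, haN⟩ := exists_normalizing hp E D hDE hDne
    have hle : D ≤ C ⊓ E := le_inf (le_normalizer.trans hNC) hDE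
    have hlt : D < C ⊓ E := by
      refine lt_of_le_of_ne hle (fun e => haD ?_)
      rw [e]
      exact ⟨hNC haN, haE⟩
    refine hmx (C ⊓ E) ⟨C, E, hC, hE, hCE, rfl, ?_⟩ hlt
    intro e
    rw [e] at hle
    exact hD1 (le_bot_iff.1 hle)
  have h1 : D ≠ A := by
    intro e
    have h2 : A ≤ B := by rw [← e]; exact hDB
    exact hAB (le_antisymm h2 (hA.2 hB.1 h2))
  have h2 : D ≠ B := by
    intro e
    have h3 : B ≤ A := by rw [← e]; exact hDA
    exact hAB (le_antisymm (hB.2 hA.1 h3) h3)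
  exact hAB ((key A hA hDA h1).symm.trans (key B hB hDB h2))

end Pool.Agent.MP_f5d2e4_al
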