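import Pool.Agent.RSG.H

set_option autoImplicit false

namespace Pool.Agent.MP_f5d2e4_al

open Subgroup

universe u

variable {Q : (K : Type u) → [Group K] → Prop}

/-- properties of `H` relative to a class `Q` of groups -/
structure Common (Q : (K : Type u) → [Group K] → Prop) (H : Type u) [Group H] : Prop where
  norm : ∀ S : Subgroup H, S ≠ ⊥ → Q S → Q (normalizer (S : Set H))
  cent : ∀ S : Subgroup H, S ≠ ⊥ → ¬ Q (normalizer (S : Set H)) → centralizer (S : Set H) = ⊥
  icc : ∀ h : H, h ≠ 1 → (conjugatesOf h).Infinite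
  ti : (∀ S : Subgroup H, Q S → Group.IsNilpotent S) →
    ∀ A B : Subgroup H, Maximal (fun S : Subgroup H => Q S) A →
      Maximal (fun S : Subgroup H => Q S) B → A ≠ B → A ⊓ B = ⊥

theorem normalizer_le_normalizer_centralizer {H : Type u} [Group H] (S : Subgroup H) :
    normalizer (S : Set H) ≤ normalizer (centralizer (S : Set H) : Set H) := by
  have key : ∀ x ∈ normalizer (S : Set H), ∀ d ∈ centralizer (S : Set H),
      x * d * x⁻¹ ∈ centralizer (S : Set H) := by
    intro x hx d hd
    rw [mem_centralizer_iff]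
    intro s hs
    have h1 : x⁻¹ * s * x ∈ S := by
      have h2 := (mem_normalizer_iff.1 (inv_mem hx) s).1 hs
      rwa [inv_inv] at h2
    have h3 : (x⁻¹ * s * x) * d = d * (x⁻¹ * s * x) := mem_centralizer_iff.1 hd _ h1
    calc s * (x * d * x⁻¹) = x * ((x⁻¹ * s * x) * d) * x⁻¹ := by group
      _ = x * (d * (x⁻¹ * s * x)) * x⁻¹ := by rw [h3]
      _ = x * d * x⁻¹ * s := by group
  intro x hx
  rw [mem_normalizer_iff]
  intro d
  refine ⟨key x hx d, fun h => ?_⟩
  have h4 := key x⁻¹ (inv_mem hx) _ h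
  have h5 : x⁻¹ * (x * d * x⁻¹) * x⁻¹⁻¹ = d := by group
  rwa [h5] at h4

theorem common_cent (hQ : QProp Q) {H : Type u} [Group H]
    (hC : ∀ h : H, h ≠ 1 → Q (centralizer ({h} : Set H)))
    (hN : ∀ S : Subgroup H, S ≠ ⊥ → Q S → Q (normalizer (S : Set H)))
    (S : Subgroup H) (hS : S ≠ ⊥) (hS2 : ¬ Q (normalizer (S : Set H))) :
    centralizer (S : Set H) = ⊥ := by
  by_contra hne
  apply hS2
  obtain ⟨s, hs, hs1⟩ : ∃ s ∈ S, s ≠ 1 := by
    by_contra hcon
    push Not at hcon
    exact hS ((eq_bot_iff_forall S).2 hcon)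
  have h1 : centralizer (S : Set H) ≤ centralizer ({s} : Set H) :=
    centralizer_le (Set.singleton_subset_iff.2 hs)
  have h2 : Q (centralizer (S : Set H)) := hQ.inj (Subgroup.inclusion h1)
    (Subgroup.inclusion_injective h1) (hC s hs1)
  exact hQ.inj (Subgroup.inclusion (normalizer_le_normalizer_centralizer S))
    (Subgroup.inclusion_injective _) (hN _ hne h2)

/-- the normaliser condition for nilpotent subgroups, inside a group -/
theorem exists_normalizing' {H : Type u} [Group H]
    (A D : Subgroup H) (hnil : Group.IsNilpotent A) (hDA : D ≤ A) (hne : D ≠ A) :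
    ∃ a ∈ A, a ∉ D ∧ a ∈ normalizer (D : Set H) := by
  have hlt : D.subgroupOf A < ⊤ := by
    rw [lt_top_iff_ne_top]
    intro e
    rw [subgroupOf_eq_top] at e
    exact hne (le_antisymm hDA e)
  have h1 := Group.normalizerCondition_of_isNilpotent (G := A) (D.subgroupOf A) hlt
  obtain ⟨a, ha, haD⟩ := SetLike.exists_of_lt h1
  refine ⟨a, a.2, haD, ?_⟩
  rw [mem_normalizer_iff]
  intro x
  constructor
  · intro hx
    have := (mem_normalizer_iff.1 ha ⟨x, hDA hx⟩).1 hx
    exact this
  · intro hx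
    have hxA : x ∈ A := by
      have h2 : (a : H) * x * (a : H)⁻¹ ∈ A := hDA hx
      have h3 := mul_mem (mul_mem (inv_mem a.2) h2) a.2
      have h4 : (a : H)⁻¹ * ((a : H) * x * (a : H)⁻¹) * a = x := by group
      rwa [h4] at h3
    exact (mem_normalizer_iff.1 ha ⟨x, hxA⟩).2 hx

theorem common_ti (hQ : QProp Q) {H : Type u} [Group H] (hmax : HasMax H)
    (hN : ∀ S : Subgroup H, S ≠ ⊥ → Q S → Q (normalizer (S : Set H)))
    (hnil : ∀ S : Subgroup H, Q S → Group.IsNilpotent S)
    (A B : Subgroup H) (hA : Maximal (fun S : Subgroup H => Q S) A)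
    (hB : Maximal (fun S : Subgroup H => Q S) B) (hAB : A ≠ B) : A ⊓ B = ⊥ := by
  by_contra hne
  have hwf := hmax.wf
  obtain ⟨D, ⟨A, B, hA, hB, hAB, hD, hD1⟩, hmx⟩ := WellFounded.has_min hwf.wf
    {D : Subgroup H | ∃ A B : Subgroup H, Maximal (fun S : Subgroup H => Q S) A ∧
      Maximal (fun S : Subgroup H => Q S) B ∧ A ≠ B ∧ D = A ⊓ B ∧ D ≠ ⊥}
    ⟨A ⊓ B, A, B, hA, hB, hAB, rfl, hne⟩
  have hDA : D ≤ A := by rw [hD]; exact inf_le_left
  have hDB : D ≤ B := by rw [hD]; exact inf_le_right
  have hDf : Q D := hQ.inj _ (Subgroup.inclusion_injective hDA) hA.1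
  have hNf : Q (normalizer (D : Set H)) := hN D hD1 hDf
  obtain ⟨C, ⟨hNC, hCf⟩, hCm⟩ := WellFounded.has_min hwf.wf
    {S : Subgroup H | normalizer (D : Set H) ≤ S ∧ Q S} ⟨_, le_rfl, hNf⟩
  have hC : Maximal (fun S : Subgroup H => Q S) C := by
    refine ⟨hCf, fun S hS hCS => ?_⟩
    by_contra hnot
    exact hCm S ⟨hNC.trans hCS, hS⟩ (lt_of_le_not_ge hCS hnot)
  have key : ∀ E : Subgroup H, Maximal (fun S : Subgroup H => Q S) E → D ≤ E → D ≠ E →
      C = E := by
    intro E hE hDE hDne
    by_contra hCE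
    obtain ⟨a, haE, haD, haN⟩ := exists_normalizing' E D (hnil E hE.1) hDE hDne
    have hle : D ≤ C ⊓ E := le_inf (le_normalizer.trans hNC) hDE
    have hlt : D < C ⊓ E := by
      refine lt_of_le_of_ne hle (fun e => haD ?_)
      rw [e]
      exact ⟨hNC haN, haE⟩
    refine hmx (C ⊓ E) ⟨C, E, hC, hE, hCE, rfl, ?_⟩ hlt
    intro e
    rw [e] at hle
    exact hD1 (le_bot_iff.1 hle)
  have h1 : D ≠ A := by
    intro e
    have h2 : A ≤ B := by rw [← e]; exact hDB
    exact hAB (le_antisymm h2 (hA.2 hB.1 h2))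
  have h2 : D ≠ B := by
    intro e
    have h3 : B ≤ A := by rw [← e]; exact hDA
    exact hAB (le_antisymm (hB.2 hA.1 h3) h3)
  exact hAB ((key A hA hDA h1).symm.trans (key B hB hDB h2))

theorem common_solvable {H : Type u} [Group H] (hmax : HasMax H)
    (hR : Residually (fun K _ => Group.IsSolvable K) H) (hn : ¬ Group.IsSolvable H)
    (hA : HMin (fun K _ => Group.IsSolvable K) H) :
    Common (fun K _ => Group.IsSolvable K) H := by
  have hC := fun h (hh : h ≠ 1) => ctx_solvable.centralizer_Q hmax trivial hR hA h hh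
  have hN := fun S h1 h2 => normalizer_solvable hmax hR hA S h1 h2
  refine ⟨hN, common_cent qprop_solvable hC hN, fun h hh => infinite_conj h fun hfi => hn ?_,
    common_ti qprop_solvable hmax hN⟩
  exact ResSol.solvable_of_finiteIndex (resSol_iff.2 hR) (centralizer ({h} : Set H)) (hC h hh)

theorem normalizer_finite' {H : Type u} [Group H]
    (hC : ∀ h : H, h ≠ 1 → Finite (centralizer ({h} : Set H)))
    (S : Subgroup H) (hS1 : S ≠ ⊥) (hS : Finite S) : Finite (normalizer (S : Set H)) := by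
  by_contra hK
  set K := normalizer (S : Set H) with hKdef
  obtain ⟨s, hs, hs1⟩ : ∃ s ∈ S, s ≠ 1 := by
    by_contra hcon
    push Not at hcon
    exact hS1 ((eq_bot_iff_forall S).2 hcon)
  have hsK : s ∈ K := le_normalizer hs
  have hfin : (conjugatesOf (⟨s, hsK⟩ : K)).Finite := by
    have h1 : (conjugatesOf (⟨s, hsK⟩ : K)) ⊆ (Subtype.val : K → H) ⁻¹' (S : Set H) := by
      intro x hx
      obtain ⟨c, hc⟩ := isConj_iff.1 hx
      have h2 : ((c : H) * s * (c : H)⁻¹) ∈ S := (mem_normalizer_iff.1 c.2 s).1 hs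
      have h3 : (x : H) = (c : H) * s * (c : H)⁻¹ := by rw [← hc]; rfl
      change (x : H) ∈ S
      rw [h3]
      exact h2
    have hSf : (S : Set H).Finite := hS
    exact (hSf.preimage Subtype.val_injective.injOn).subset h1
  have hfi := mulEquiv_conj_ne _ hfin
  have hcf : Finite (centralizer ({(⟨s, hsK⟩ : K)} : Set K)) := by
    have h4 := hC s hs1
    refine Finite.of_injective (β := centralizer ({s} : Set H))
      (fun x => ⟨((x : K) : H), ?_⟩) ?_
    · rw [mem_centralizer_iff]
      intro y hy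
      rw [Set.mem_singleton_iff] at hy
      subst hy
      exact congrArg Subtype.val (mem_centralizer_iff.1 x.2 ⟨y, hsK⟩ rfl)
    · intro x y hxy
      have : ((x : K) : H) = ((y : K) : H) :=
        congrArg (fun z : centralizer ({s} : Set H) => (z : H)) hxy
      exact Subtype.ext (Subtype.ext this)
  have : Finite (K ⧸ centralizer ({(⟨s, hsK⟩ : K)} : Set K)) := inferInstance
  exact hK (Finite.of_subgroup_quotient (centralizer ({(⟨s, hsK⟩ : K)} : Set K)))

theorem common_finite {H : Type u} [Group H] (hmax : HasMax H) (hT : ∀ g : H, IsOfFinOrder g)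
    (hR : Residually (fun K _ => Finite K) H) (hn : ¬ Finite H)
    (hA : HMin (fun K _ => Finite K) H) :
    Common (fun K _ => Finite K) H := by
  have hC := fun h (hh : h ≠ 1) => ctx_finite.centralizer_Q hmax hT hR hA h hh
  have hN := fun S h1 h2 => normalizer_finite' hC S h1 h2
  refine ⟨hN, common_cent qprop_finite hC hN, fun h hh => infinite_conj h fun hfi => hn ?_,
    common_ti qprop_finite hmax hN⟩
  have := hC h hh
  have : Finite (H ⧸ centralizer ({h} : Set H)) := inferInstance
  exact Finite.of_subgroup_quotient (centralizer ({h} : Set H))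

/-- what is needed of the class `Q` for periodic groups -/
structure PCtx (Q : (K : Type u) → [Group K] → Prop) : Prop where
  c : Ctx Q (fun K _ => ∀ g : K, IsOfFinOrder g)
  qfin : ∀ {K : Type u} [Group K], HasMax K → (∀ g : K, IsOfFinOrder g) → Q K → Finite K
  finq : ∀ {K : Type u} [Group K], Residually Q K → Finite K → Q K
  rf : ∀ {K : Type u} [Group K], HasMax K → (∀ g : K, IsOfFinOrder g) → Residually Q K → ResFin K

theorem pctx_solvable : PCtx.{u} (fun K _ => Group.IsSolvable K) where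
  c := {
    q := qprop_solvable
    tinj := ctx_finite.tinj
    tsurj := ctx_finite.tsurj
    ab := fun _ _ h => Group.isSolvable_of_comm h }
  qfin := fun h1 h2 h3 => finite_of_solvable h1 h2 h3
  finq := fun h1 h2 => (resSol_iff.2 h1).solvable_of_finite
  rf := fun h1 h2 h3 => ResFin.of_resSol h1 h2 (resSol_iff.2 h3)

theorem pctx_finite : PCtx.{u} (fun K _ => Finite K) where
  c := ctx_finite
  qfin := fun _ _ h => h
  finq := fun _ h => h
  rf := fun _ _ h => resFin_iff.2 h

/-- two elements of order `p` generating an infinite subgroup -/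
theorem exists_two_gen {H : Type u} [Group H] (hmax : HasMax H) (hinf : Infinite H) {p : ℕ}
    [hpp : Fact p.Prime] (hp : IsPGroup p H)
    (hTI : ∀ A B : Subgroup H, Maximal (fun S : Subgroup H => Finite S) A →
        Maximal (fun S : Subgroup H => Finite S) B → A ≠ B → A ⊓ B = ⊥)
    (hN : ∀ S : Subgroup H, S ≠ ⊥ → Finite S → Finite (normalizer (S : Set H))) :
    ∃ x y : H, x ^ p = 1 ∧ y ^ p = 1 ∧ Infinite (closure ({x, y} : Set H)) := by
  have hwf := hmax.wf
  have hcov : ∀ S : Subgroup H, Finite S → ∃ A : Subgroup H, S ≤ A ∧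
      Maximal (fun S : Subgroup H => Finite S) A := by
    intro S hS
    obtain ⟨C, ⟨hNC, hCf⟩, hCm⟩ := WellFounded.has_min hwf.wf
      {S' : Subgroup H | S ≤ S' ∧ Finite S'} ⟨_, le_rfl, hS⟩
    refine ⟨C, hNC, hCf, fun S' hS' hCS => ?_⟩
    by_contra hnot
    exact hCm S' ⟨hNC.trans hCS, hS'⟩ (lt_of_le_not_ge hCS hnot)
  -- an element of order `p`
  obtain ⟨g, hg⟩ := exists_ne (1 : H)
  obtain ⟨x, hx1, hxp⟩ : ∃ x : H, x ≠ 1 ∧ x ^ p = 1 := by
    obtain ⟨k, hk⟩ := hp g
    have hex : ∃ k, g ^ p ^ k = 1 := ⟨k, hk⟩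
    classical
    have hf := Nat.find_spec hex
    have hm := fun m (hm : m < Nat.find hex) => Nat.find_min hex hm
    rcases hn : Nat.find hex with _ | m
    · rw [hn, pow_zero, pow_one] at hf
      exact absurd hf hg
    · refine ⟨g ^ p ^ m, hm m (by omega), ?_⟩
      rw [← pow_mul, ← pow_succ, ← hn]
      exact hf
  have hxfin : Finite (zpowers x) := by
    have : IsOfFinOrder x := isOfFinOrder_iff_pow_eq_one.2 ⟨p, hpp.out.pos, hxp⟩
    exact finite_zpowers.2 this
  obtain ⟨A, hxA, hA⟩ := hcov (zpowers x) hxfin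
  have hxA' : x ∈ A := hxA (mem_zpowers x)
  have hAf : Finite A := hA.1
  have hA1 : A ≠ ⊥ := by
    intro e
    rw [e, mem_bot] at hxA'
    exact hx1 hxA'
  -- `A` is self-normalising and not everything
  have hAtop : ∃ g : H, g ∉ normalizer (A : Set H) := by
    by_contra hcon
    push Not at hcon
    have hNf := hN A hA1 hAf
    have : normalizer (A : Set H) = ⊤ := (eq_top_iff' _).2 hcon
    rw [this] at hNf
    have : Finite H := Finite.of_injective (fun h : H => (⟨h, mem_top h⟩ : (⊤ : Subgroup H)))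
      (fun a b hab => congrArg Subtype.val hab)
    exact not_finite H
  obtain ⟨g, hg⟩ := hAtop
  set y : H := g * x * g⁻¹ with hy
  set B : Subgroup H := A.map (MulAut.conj g).toMonoidHom with hB
  have hyB : y ∈ B := mem_map_of_mem (MulAut.conj g).toMonoidHom hxA'
  have hBmax : Maximal (fun S : Subgroup H => Finite S) B := by
    refine ⟨Finite.of_surjective _ ((MulAut.conj g).toMonoidHom.subgroupMap_surjective A), ?_⟩
    intro S hS hBS
    have hS' : Finite S := hS
    have h1 : A ≤ S.map (MulAut.conj g⁻¹).toMonoidHom := by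
      intro a ha
      refine mem_map.2 ⟨g * a * g⁻¹, hBS (mem_map_of_mem (MulAut.conj g).toMonoidHom ha), ?_⟩
      change g⁻¹ * (g * a * g⁻¹) * g⁻¹⁻¹ = a
      group
    have h2 : S.map (MulAut.conj g⁻¹).toMonoidHom ≤ A := hA.2
      (Finite.of_surjective _ ((MulAut.conj g⁻¹).toMonoidHom.subgroupMap_surjective S)) h1
    intro s hs
    have h3 := h2 (mem_map_of_mem (MulAut.conj g⁻¹).toMonoidHom hs)
    refine mem_map.2 ⟨_, h3, ?_⟩
    change g * (g⁻¹ * s * g⁻¹⁻¹) * g⁻¹ = s
    group
  have hAB : A ≠ B := by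
    intro e
    apply hg
    rw [mem_normalizer_iff]
    intro a
    constructor
    · intro ha
      have : g * a * g⁻¹ ∈ B := mem_map_of_mem (MulAut.conj g).toMonoidHom ha
      rwa [← e] at this
    · intro ha
      rw [e] at ha
      obtain ⟨b, hb, hbe⟩ := mem_map.1 ha
      have h1 : g * b * g⁻¹ = g * a * g⁻¹ := hbe
      have h2 : b = a := mul_left_cancel (mul_right_cancel h1)
      rwa [← h2]
  refine ⟨x, y, hxp, ?_, ?_⟩
  · have h1 := conj_pow (i := p) (a := g) (b := x)
    rw [hxp] at h1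
    rw [hy, h1]
    group
  · rw [← not_finite_iff_infinite]
    intro hfin
    obtain ⟨C, hC, hCmax⟩ := hcov _ hfin
    have hxC : x ∈ C := hC (subset_closure (by simp))
    have hyC : y ∈ C := hC (subset_closure (by simp))
    have hy1 : y ≠ 1 := by
      intro e
      apply hx1
      have h2 : g * x * g⁻¹ = 1 := e
      have h3 : x = g⁻¹ * (g * x * g⁻¹) * g := by group
      rw [h3, h2]
      group
    have hCA : C = A := by
      by_contra hne
      have := hTI C A hCmax hA hne
      have h1 : x ∈ C ⊓ A := ⟨hxC, hxA'⟩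
      rw [this, mem_bot] at h1
      exact hx1 h1
    have hCB : C = B := by
      by_contra hne
      have := hTI C B hCmax hBmax hne
      have h1 : y ∈ C ⊓ B := ⟨hyC, hyB⟩
      rw [this, mem_bot] at h1
      exact hy1 h1
    exact hAB (hCA.symm.trans hCB)

end Pool.Agent.MP_f5d2e4_al
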