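import Pool.Agent.RSG.I

set_option autoImplicit false

namespace Pool.Agent.MP_f5d2e4_al

open Subgroup

universe u

variable {Q : (K : Type u) → [Group K] → Prop}

theorem PCtx.centralizer_finite (c : PCtx Q) {H : Type u} [Group H] (hmax : HasMax H)
    (ht : ∀ g : H, IsOfFinOrder g) (hR : Residually Q H) (hA : HMin Q H) (h : H) (hh : h ≠ 1) :
    Finite (centralizer ({h} : Set H)) :=
  c.qfin (hmax.of_injective _ (Subgroup.subtype_injective _))
    (ctx_finite.tinj (Subgroup.subtype _) (Subgroup.subtype_injective _) ht)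
    (c.c.centralizer_Q hmax ht hR hA h hh)

/-- `H` is a homomorphic image of a subgroup of `G` -/
def IsSection (H G : Type u) [Group H] [Group G] : Prop :=
  ∃ (X : Subgroup G) (f : X →* H), Function.Surjective f

theorem SecY.isSection {G : Type u} [Group G] {Y : Subgroup G} {H : Type u} [Group H]
    (h : SecY Y H) : IsSection H G := by
  obtain ⟨X, f, hf, -⟩ := h
  exact ⟨X, f, hf⟩

end Pool.Agent.MP_f5d2e4_al
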