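import Pool.Agent.RSG.J

set_option autoImplicit false

namespace Pool.Agent.MP_f5d2e4_al

open Subgroup

universe u

/-- class of nilpotent groups -/
def Nil (L : Type u) [Group L] : Prop := Group.IsNilpotent L

/-- class of finite nilpotent groups -/
def FNil (L : Type u) [Group L] : Prop := Finite L ∧ Group.IsNilpotent L

/-- class of finite `p`-groups -/
def FP (p : ℕ) (L : Type u) [Group L] : Prop := Finite L ∧ IsPGroup p L

/-- groups of nilpotent length at most `n` -/
def NilLen : ℕ → (L : Type u) → [Group L] → Prop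
  | 0, L, _ => Subsingleton L
  | n + 1, L, _ => ∃ (A : Subgroup L) (_ : A.Normal), Group.IsNilpotent A ∧ NilLen n (L ⧸ A)

theorem center_exponent_aux (e : ℕ) (G : Type u) [Group G] [Group.IsNilpotent G] :
    (∀ z ∈ center G, z ^ e = 1) → ∀ g : G, ∃ k : ℕ, g ^ (e ^ k) = 1 := by
  refine Group.nilpotent_center_quotient_ind (P := fun G _ _ =>
    (∀ z ∈ center G, z ^ e = 1) → ∀ g : G, ∃ k : ℕ, g ^ (e ^ k) = 1) G ?_ ?_
  · intro G _ _ _ g
    exact ⟨0, Subsingleton.elim _ _⟩
  · intro G _ _ ih hz g
    have hz' : ∀ z ∈ center (G ⧸ center G), z ^ e = 1 := by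
      intro z hz1
      obtain ⟨y, rfl⟩ := QuotientGroup.mk'_surjective (center G) z
      rw [← map_pow]
      refine (QuotientGroup.eq_one_iff (y ^ e)).2 ?_
      rw [mem_center_iff]
      intro x
      -- the commutator of `x` and `y` is central
      have h1 : x * y * x⁻¹ * y⁻¹ ∈ center G := by
        rw [← QuotientGroup.ker_mk' (center G), MonoidHom.mem_ker, map_mul, map_mul, map_mul,
          map_inv, map_inv, mem_center_iff.1 hz1 (QuotientGroup.mk' (center G) x)]
        group
      have h2 := hz _ h1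
      set c := x * y * x⁻¹ * y⁻¹ with hc
      have h3 : x * y * x⁻¹ = c * y := by rw [hc]; group
      have hcomm : Commute c y := (mem_center_iff.1 h1 y).symm
      have h4 : x * y ^ e * x⁻¹ = y ^ e := by
        have h5 := conj_pow (i := e) (a := x) (b := y)
        rw [← h5, h3, hcomm.mul_pow, h2, one_mul]
      exact mul_inv_eq_iff_eq_mul.1 h4
    obtain ⟨k, hk⟩ := ih hz' (QuotientGroup.mk' (center G) g)
    rw [← map_pow] at hk
    have h6 : g ^ (e ^ k) ∈ center G := (QuotientGroup.eq_one_iff _).1 hk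
    refine ⟨k + 1, ?_⟩
    rw [pow_succ, pow_mul]
    exact hz _ h6

/-- the monolith argument -/
theorem exists_finite_quotient (N : Type u) [Group N] [hnil : Group.IsNilpotent N] (hmax : HasMax N)
    (x : N) (hx : x ≠ 1) :
    ∃ (M : Subgroup N) (_ : M.Normal), x ∉ M ∧ Finite (N ⧸ M) ∧
      ∀ p : ℕ, p.Prime → x ^ p = 1 → IsPGroup p (N ⧸ M) := by
  have hwf := hmax.wf
  obtain ⟨M, ⟨hMn, hxM⟩, hmx⟩ := WellFounded.has_min hwf.wf
    {M : Subgroup N | M.Normal ∧ x ∉ M} ⟨⊥, inferInstance, fun h => hx (mem_bot.1 h)⟩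
  refine ⟨M, hMn, hxM, ?_⟩
  set G := N ⧸ M with hG
  set xb : G := QuotientGroup.mk' M x with hxb
  have hxb1 : xb ≠ 1 := fun h => hxM ((QuotientGroup.eq_one_iff x).1 h)
  have hmaxG : HasMax G := hmax.of_surjective (QuotientGroup.mk' M)
    (QuotientGroup.mk'_surjective M)
  have hnilG : Group.IsNilpotent G := Group.nilpotent_of_surjective
    (QuotientGroup.mk' M) (QuotientGroup.mk'_surjective M)
  -- every nontrivial normal subgroup contains `xb`
  have hmono : ∀ P : Subgroup G, P.Normal → P ≠ ⊥ → xb ∈ P := by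
    intro P hP hP1
    by_contra hnot
    have hlt : M < P.comap (QuotientGroup.mk' M) := by
      refine lt_of_le_of_ne ?_ ?_
      · intro y hy
        rw [mem_comap, show QuotientGroup.mk' M y = 1 from (QuotientGroup.eq_one_iff y).2 hy]
        exact one_mem _
      · intro e
        apply hP1
        rw [eq_bot_iff_forall]
        intro q hq
        obtain ⟨y, rfl⟩ := QuotientGroup.mk'_surjective M q
        have : y ∈ P.comap (QuotientGroup.mk' M) := hq
        rw [← e] at this
        exact (QuotientGroup.eq_one_iff y).2 this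
    exact hmx _ ⟨hP.comap _, hnot⟩ hlt
  have hcen : ∀ z ∈ center G, z ≠ 1 → xb ∈ zpowers z := by
    intro z hz hz1
    refine hmono _ ⟨?_⟩ ?_
    · intro y hy g
      have hyc : y ∈ center G := by
        have : zpowers z ≤ center G := by rw [zpowers_le]; exact hz
        exact this hy
      have : g * y * g⁻¹ = y := by rw [mem_center_iff.1 hyc g]; group
      rw [this]
      exact hy
    · rwa [Ne, zpowers_eq_bot]
  -- the centre is periodic
  have htor : ∀ z ∈ center G, IsOfFinOrder z := by
    intro z hz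
    by_contra hinf
    have hz1 : z ≠ 1 := by
      intro e
      apply hinf
      rw [e]
      exact isOfFinOrder_iff_pow_eq_one.2 ⟨1, Nat.one_pos, one_pow 1⟩
    have hinj : Function.Injective (fun n : ℤ => z ^ n) :=
      injective_zpow_iff_not_isOfFinOrder.2 hinf
    obtain ⟨a, ha⟩ := mem_zpowers_iff.1 (hcen z hz hz1)
    have ha0 : a ≠ 0 := by
      intro e
      rw [e, zpow_zero] at ha
      exact hxb1 ha.symm
    have hz2 : z ^ (|a| + 1) ∈ center G := zpow_mem hz _
    have hz3 : z ^ (|a| + 1) ≠ 1 := by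
      intro e
      have h1 : |a| + 1 = 0 := hinj (by simpa using e)
      have := abs_nonneg a
      omega
    obtain ⟨b, hb⟩ := mem_zpowers_iff.1 (hcen _ hz2 hz3)
    rw [← ha, ← zpow_mul] at hb
    have h2 : (|a| + 1) * b = a := hinj hb
    have h3 : b ≠ 0 := by
      intro e
      rw [e, mul_zero] at h2
      exact ha0 h2.symm
    have h4 : |a| = (|a| + 1) * |b| := by
      have h5 := congrArg (fun t => |t|) h2
      rw [abs_mul] at h5
      have h6 : |(|a| + 1)| = |a| + 1 := abs_of_nonneg (by have := abs_nonneg a; omega)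
      rw [h6] at h5
      exact h5.symm
    have h7 : 1 ≤ |b| := Int.one_le_abs h3
    have h8 := abs_nonneg a
    nlinarith
  have hZfin : Finite (center G) := by
    refine finite_of_abelian (hmaxG.of_injective (center G).subtype (center G).subtype_injective)
      (fun z => ?_) (fun a b => Subtype.ext (mem_center_iff.1 b.2 a.1))
    exact (Function.Injective.isOfFinOrder_iff (f := (center G).subtype)
      (center G).subtype_injective).1 (htor z z.2)
  have hexp : ∀ z ∈ center G, z ^ Nat.card (center G) = 1 := by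
    intro z hz
    have := pow_card_eq_one' (x := (⟨z, hz⟩ : center G))
    exact congrArg Subtype.val this
  have hall := center_exponent_aux (Nat.card (center G)) G hexp
  have hcpos : 0 < Nat.card (center G) := Nat.card_pos
  have htG : ∀ g : G, IsOfFinOrder g := by
    intro g
    obtain ⟨k, hk⟩ := hall g
    exact isOfFinOrder_iff_pow_eq_one.2 ⟨_, pow_pos hcpos k, hk⟩
  have hsol : Group.IsSolvable G := inferInstance
  refine ⟨finite_of_solvable hmaxG htG hsol, ?_⟩
  intro p hp hxp
  have hpp : Fact p.Prime := ⟨hp⟩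
  have hxbp : xb ^ p = 1 := by rw [hxb, ← map_pow, hxp, map_one]
  have hox : orderOf xb = p := orderOf_eq_prime hxbp hxb1
  have hZp : IsPGroup p (center G) := by
    rw [IsPGroup.iff_orderOf]
    intro z
    by_contra hcon
    have hzpos : 0 < orderOf z := orderOf_pos z
    obtain ⟨q, hq, hqz, hqp⟩ : ∃ q : ℕ, q.Prime ∧ q ∣ orderOf z ∧ q ≠ p := by
      by_contra hno
      push Not at hno
      apply hcon
      exact ⟨(orderOf z).primeFactorsList.length, Nat.eq_prime_pow_of_unique_prime_dvd
        hzpos.ne' (fun {d} hd hdz => hno d hd hdz)⟩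
    set w : center G := z ^ (orderOf z / q) with hw
    have hwo : orderOf w = q := by
      rw [hw, orderOf_pow_of_dvd (Nat.div_pos (Nat.le_of_dvd hzpos hqz) hq.pos).ne'
        (Nat.div_dvd_of_dvd hqz)]
      exact Nat.div_div_self hqz hzpos.ne'
    have hwo' : orderOf (w : G) = q := by rw [Subgroup.orderOf_coe, hwo]
    have hw1 : (w : G) ≠ 1 := by
      intro e
      rw [e, orderOf_one] at hwo'
      exact hq.one_lt.ne hwo'
    have h1 := hcen (w : G) w.2 hw1
    have h2 : orderOf xb ∣ orderOf (w : G) := orderOf_dvd_of_mem_zpowers h1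
    rw [hox, hwo', Nat.prime_dvd_prime_iff_eq hp hq] at h2
    exact hqp h2.symm
  obtain ⟨n, hn⟩ := IsPGroup.iff_card.1 hZp
  intro g
  obtain ⟨k, hk⟩ := hall g
  refine ⟨n * k, ?_⟩
  rw [hn] at hk
  rw [pow_mul]
  exact hk

/-- a central element of infinite order survives in a finite `p`-quotient -/
theorem exists_p_quotient (N : Type u) [Group N] [hnil : Group.IsNilpotent N] (hmax : HasMax N)
    (x : N) (hx : x ∈ center N) (hinf : ∀ e : ℕ, 0 < e → x ^ e ≠ 1) (p : ℕ) (hp : p.Prime) :
    ∃ (L : Type u) (_ : Group L) (ψ : N →* L), FP p L ∧ ψ x ≠ 1 := by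
  set P : Subgroup N := zpowers (x ^ p) with hP
  have hPc : P ≤ center N := by
    rw [hP, zpowers_le]
    exact pow_mem hx p
  have hPn : P.Normal := ⟨fun y hy g => by
    have : g * y * g⁻¹ = y := by rw [mem_center_iff.1 (hPc hy) g]; group
    rw [this]
    exact hy⟩
  have hnil' : Group.IsNilpotent (N ⧸ P) := Group.nilpotent_of_surjective
    (QuotientGroup.mk' P) (QuotientGroup.mk'_surjective P)
  have hxP : x ∉ P := by
    intro h
    obtain ⟨a, ha⟩ := mem_zpowers_iff.1 h
    have hno : ¬ IsOfFinOrder x := by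
      intro h1
      obtain ⟨n, hn, hn1⟩ := isOfFinOrder_iff_pow_eq_one.1 h1
      exact hinf n hn hn1
    have hinj : Function.Injective (fun n : ℤ => x ^ n) :=
      injective_zpow_iff_not_isOfFinOrder.2 hno
    rw [← zpow_natCast, ← zpow_mul] at ha
    have h2 : (p : ℤ) * a = 1 := hinj (by simpa using ha)
    have h3 : (p : ℤ) ∣ 1 := ⟨a, h2.symm⟩
    have h4 : p ∣ 1 := by exact_mod_cast h3
    exact hp.one_lt.ne' (Nat.dvd_one.1 h4)
  obtain ⟨M, hM, hxM, hfin, hpg⟩ := exists_finite_quotient (N ⧸ P)
    (hmax.of_surjective _ (QuotientGroup.mk'_surjective P)) (QuotientGroup.mk' P x)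
    (fun h => hxP ((QuotientGroup.eq_one_iff x).1 h))
  refine ⟨(N ⧸ P) ⧸ M, inferInstance, (QuotientGroup.mk' M).comp (QuotientGroup.mk' P),
    ⟨hfin, hpg p hp ?_⟩, ?_⟩
  · rw [← map_pow]
    exact (QuotientGroup.eq_one_iff _).2 (mem_zpowers _)
  · intro h
    exact hxM ((QuotientGroup.eq_one_iff _).1 h)

/-- residually nilpotent with max is residually (finite nilpotent) -/
theorem rq_fnil {H : Type u} [Group H] (hmax : HasMax H) (h : Residually Nil H) : Residually FNil H := by
  intro g hg
  obtain ⟨L, iL, ψ, hL, hψ⟩ := h g hg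
  have hnil : Group.IsNilpotent L := hL
  have hr : Group.IsNilpotent ψ.range := inferInstance
  obtain ⟨M, hM, hxM, hfin, -⟩ := exists_finite_quotient ψ.range
    (hmax.of_surjective ψ.rangeRestrict ψ.rangeRestrict_surjective) (ψ.rangeRestrict g)
    (fun h => hψ (congrArg Subtype.val h))
  refine ⟨ψ.range ⧸ M, inferInstance, (QuotientGroup.mk' M).comp ψ.rangeRestrict,
    ⟨hfin, Group.nilpotent_of_surjective (QuotientGroup.mk' M)
      (QuotientGroup.mk'_surjective M)⟩, ?_⟩
  intro h
  exact hxM ((QuotientGroup.eq_one_iff _).1 h)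

end Pool.Agent.MP_f5d2e4_al
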