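import Pool.Agent.RSG.K

set_option autoImplicit false

namespace Pool.Agent.MP_f5d2e4_al

open Subgroup
open scoped commutatorElement

universe u

variable {Q T : (K : Type u) → [Group K] → Prop}

/-- minimality of `H` itself -/
def HM1 (Q : (K : Type u) → [Group K] → Prop) (H : Type u) [Group H] : Prop :=
  ∀ (N : Subgroup H) [N.Normal], N ≠ ⊥ → Residually Q (H ⧸ N) → Q (H ⧸ N)

theorem exists_Y1 {G : Type u} [Group G] (hmax : HasMax G) (hR : Residually Q G) (hn : ¬ Q G) :
    ∃ Y : Subgroup G, (∃ (H : Type u) (_ : Group H), SecY Y H ∧ Residually Q H ∧ ¬ Q H) ∧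
      ∀ (H : Type u) [Group H], SecY Y H → HM1 Q H := by
  have hwf := hmax.wf
  obtain ⟨Y, hY, hmx⟩ := WellFounded.has_min hwf.wf
    {Y : Subgroup G | ∃ (H : Type u) (_ : Group H), SecY Y H ∧ Residually Q H ∧ ¬ Q H}
    ⟨_, G, inferInstance, ⟨⊤, (⊤ : Subgroup G).subtype,
      fun x => ⟨⟨x, mem_top x⟩, rfl⟩, rfl⟩, hR, hn⟩
  refine ⟨Y, hY, fun H _ hH N hN hN1 hRN => ?_⟩
  by_contra hQN
  obtain ⟨Y', hlt, hsec⟩ := hH.quot N hN1
  exact hmx Y' ⟨H ⧸ N, inferInstance, hsec, hRN, hQN⟩ hlt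

theorem HM1.centralizer_eq_bot (c : Ctx Q T) {H : Type u} [Group H] (hmax : HasMax H) (hT : T H)
    (hR : Residually Q H) (hA : HM1 Q H) (hn : ¬ Q H) (N : Subgroup H) [hN : N.Normal]
    (hN1 : N ≠ ⊥) : centralizer (N : Set H) = ⊥ := by
  by_contra hC1
  set C : Subgroup H := centralizer (N : Set H) with hC
  have hCn : C.Normal := inferInstance
  set D : Subgroup H := centralizer (C : Set H) with hD
  have hDn : D.Normal := inferInstance
  have hND : N ≤ D := by
    intro n hn
    rw [hD, mem_centralizer_iff]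
    intro x hx
    exact (mem_centralizer_iff.1 hx n hn).symm
  have hD1 : D ≠ ⊥ := fun e => hN1 (le_bot_iff.1 (e ▸ hND))
  have h1 : Q (H ⧸ C) := hA C hC1 (hR.quot_centralizer c.q N)
  have h2 : Q (H ⧸ D) := hA D hD1 (hR.quot_centralizer c.q C)
  apply hn
  refine c.q.ext (QuotientGroup.mk' C) ?_ h1
  rw [QuotientGroup.ker_mk']
  refine c.q.ext ((QuotientGroup.mk' D).comp C.subtype) ?_ h2
  have hinj : Function.Injective (C.subtype.comp
      ((QuotientGroup.mk' D).comp C.subtype).ker.subtype) :=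
    C.subtype_injective.comp (Subgroup.subtype_injective _)
  refine c.ab (hmax.of_injective _ hinj) (c.tinj _ hinj hT) ?_
  intro a b
  have hb : ((b : C) : H) ∈ D := (QuotientGroup.eq_one_iff _).1 b.2
  apply Subtype.ext
  apply Subtype.ext
  exact mem_centralizer_iff.1 hb _ (a : C).2

theorem HM1.inf_ne_bot (c : Ctx Q T) {H : Type u} [Group H] (hmax : HasMax H) (hT : T H)
    (hR : Residually Q H) (hA : HM1 Q H) (hn : ¬ Q H) (M N : Subgroup H)
    [hM : M.Normal] [hN : N.Normal] (hM1 : M ≠ ⊥) (hN1 : N ≠ ⊥) : M ⊓ N ≠ ⊥ := by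
  intro e
  apply hN1
  rw [eq_bot_iff, ← hA.centralizer_eq_bot c hmax hT hR hn M hM1]
  have h1 : ⁅M, N⁆ = ⊥ := by
    rw [eq_bot_iff, ← e]
    exact commutator_le_inf M N
  rw [commutator_comm] at h1
  exact commutator_eq_bot_iff_le_centralizer.1 h1

/-- extensions of an `A`-group by a `B`-group -/
def By (A B : (K : Type u) → [Group K] → Prop) (L : Type u) [Group L] : Prop :=
  ∃ (M : Subgroup L) (_ : M.Normal), A M ∧ B (L ⧸ M)

theorem HM1.prod_class {A B : (K : Type u) → [Group K] → Prop} (hQ : QProp Q)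
    (hB : ∀ (K : Type u) [Group K], B K → Q K) {H : Type u} [Group H] (hA : HM1 Q H)
    (hn : ¬ Q H) (hR : Residually (By A B) H) :
    Residually B H ∨ ∃ D : Subgroup H, D.Normal ∧ ¬ Q D ∧ Residually A D := by
  let D : Subgroup H :=
    { carrier := {x | ∀ (L : Type u) (_ : Group L) (ψ : H →* L) (M : Subgroup L) (_ : M.Normal),
        A M → B (L ⧸ M) → ψ x ∈ M}
      mul_mem' := by
        intro a b ha hb L iL ψ M hM h1 h2
        rw [map_mul]
        exact mul_mem (ha L iL ψ M hM h1 h2) (hb L iL ψ M hM h1 h2)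
      one_mem' := by
        intro L iL ψ M hM h1 h2
        rw [map_one]
        exact one_mem M
      inv_mem' := by
        intro a ha L iL ψ M hM h1 h2
        rw [map_inv]
        exact inv_mem (ha L iL ψ M hM h1 h2) }
  have hDn : D.Normal := by
    refine ⟨fun x hx g L iL ψ M hM h1 h2 => ?_⟩
    rw [map_mul, map_mul, map_inv]
    exact hM.conj_mem _ (hx L iL ψ M hM h1 h2) _
  have hout : ∀ x : H, x ∉ D → ∃ (L : Type u) (_ : Group L) (ψ : H →* L) (M : Subgroup L)
      (_ : M.Normal), A M ∧ B (L ⧸ M) ∧ ψ x ∉ M := by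
    intro x hx
    by_contra hcon
    apply hx
    intro L iL ψ M hM h1 h2
    by_contra h3
    exact hcon ⟨L, iL, ψ, M, hM, h1, h2, h3⟩
  by_cases hD : D = ⊥
  · left
    intro g hg
    obtain ⟨L, iL, ψ, M, hM, h1, h2, h3⟩ := hout g (by rw [hD, mem_bot]; exact hg)
    exact ⟨L ⧸ M, inferInstance, (QuotientGroup.mk' M).comp ψ, h2,
      fun e => h3 ((QuotientGroup.eq_one_iff (ψ g)).1 e)⟩
  · right
    have hQD : Q (H ⧸ D) := by
      refine hA D hD ?_
      intro q hq
      obtain ⟨g, rfl⟩ := QuotientGroup.mk'_surjective D q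
      have hg : g ∉ D := fun e => hq ((QuotientGroup.eq_one_iff g).2 e)
      obtain ⟨L, iL, ψ, M, hM, h1, h2, h3⟩ := hout g hg
      refine ⟨L ⧸ M, inferInstance, QuotientGroup.lift D ((QuotientGroup.mk' M).comp ψ) ?_,
        hB _ h2, ?_⟩
      · intro x hx
        exact (QuotientGroup.eq_one_iff (ψ x)).2 (hx L iL ψ M hM h1 h2)
      · intro e
        exact h3 ((QuotientGroup.eq_one_iff (ψ g)).1 e)
    refine ⟨D, hDn, fun h => hn ?_, ?_⟩
    · refine hQ.ext (QuotientGroup.mk' D) ?_ hQD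
      rw [QuotientGroup.ker_mk']
      exact h
    · intro d hd
      obtain ⟨L, iL, ψ, ⟨M, hM, h1, h2⟩, h3⟩ := hR (d : H) (fun e => hd (Subtype.ext e))
      refine ⟨M, inferInstance, (ψ.comp D.subtype).codRestrict M (fun x => ?_), h1, ?_⟩
      · exact x.2 L iL ψ M hM h1 h2
      · intro e
        exact h3 (congrArg Subtype.val e)

theorem NilLen.solvable (n : ℕ) : ∀ (L : Type u) [Group L], NilLen n L → Group.IsSolvable L := by
  induction n with
  | zero =>
    intro L _ h
    have : Subsingleton L := h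
    infer_instance
  | succ n ih =>
    intro L _ ⟨A, hA, h1, h2⟩
    have h3 := ih _ h2
    exact Group.isSolvable_of_ker_le_range A.subtype (QuotientGroup.mk' A) (by simp)

/-- an element surviving in a nilpotent quotient survives in a finite `q`-quotient -/
theorem nil_survive (N : Type u) [Group N] [hnil : Group.IsNilpotent N] (hmax : HasMax N)
    (y : N) (hy : y ≠ 1) :
    ∃ (q : ℕ) (L : Type u) (_ : Group L) (ψ : N →* L), q.Prime ∧ FP q L ∧ ψ y ≠ 1 := by
  obtain ⟨M, hM, hyM, hfin, -⟩ := exists_finite_quotient N hmax y hy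
  set G := N ⧸ M with hG
  have hmaxG : HasMax G := hmax.of_surjective (QuotientGroup.mk' M)
    (QuotientGroup.mk'_surjective M)
  have hnilG : Group.IsNilpotent G := Group.nilpotent_of_surjective
    (QuotientGroup.mk' M) (QuotientGroup.mk'_surjective M)
  set yb : G := QuotientGroup.mk' M y with hyb
  have hyb1 : yb ≠ 1 := fun h => hyM ((QuotientGroup.eq_one_iff y).1 h)
  have hpos : 0 < orderOf yb := orderOf_pos yb
  have hne1 : orderOf yb ≠ 1 := fun h => hyb1 (orderOf_eq_one_iff.1 h)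
  obtain ⟨q, hq, hqy⟩ := Nat.exists_prime_and_dvd hne1
  set z : G := yb ^ (orderOf yb / q) with hz
  have hzo : orderOf z = q := by
    rw [hz, orderOf_pow_of_dvd (Nat.div_pos (Nat.le_of_dvd hpos hqy) hq.pos).ne'
      (Nat.div_dvd_of_dvd hqy)]
    exact Nat.div_div_self hqy hpos.ne'
  have hz1 : z ≠ 1 := by
    intro e
    rw [e, orderOf_one] at hzo
    exact hq.one_lt.ne hzo
  obtain ⟨M2, hM2, hzM, hfin2, hpg⟩ := exists_finite_quotient G hmaxG z hz1
  refine ⟨q, G ⧸ M2, inferInstance, (QuotientGroup.mk' M2).comp (QuotientGroup.mk' M), hq,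
    ⟨hfin2, hpg q hq (by rw [← hzo]; exact pow_orderOf_eq_one z)⟩, ?_⟩
  intro e
  have h1 : yb ∈ M2 := (QuotientGroup.eq_one_iff _).1 e
  exact hzM (pow_mem h1 _)

/-- the `p`-residual -/
def resid (p : ℕ) (H : Type u) [Group H] : Subgroup H where
  carrier := {x | ∀ (L : Type u) (_ : Group L) (ψ : H →* L), FP p L → ψ x = 1}
  mul_mem' := by
    intro a b ha hb L iL ψ h
    rw [map_mul, ha L iL ψ h, hb L iL ψ h, one_mul]
  one_mem' := by
    intro L iL ψ h
    exact map_one ψ
  inv_mem' := by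
    intro a ha L iL ψ h
    rw [map_inv, ha L iL ψ h, inv_one]

theorem resid_normal (p : ℕ) (H : Type u) [Group H] : (resid p H).Normal := by
  refine ⟨fun x hx g L iL ψ h => ?_⟩
  rw [map_mul, map_mul, map_inv, hx L iL ψ h]
  group

theorem resid_out {p : ℕ} {H : Type u} [Group H] {x : H} (hx : x ∉ resid p H) :
    ∃ (L : Type u) (_ : Group L) (ψ : H →* L), FP p L ∧ ψ x ≠ 1 := by
  by_contra hcon
  apply hx
  intro L iL ψ h
  by_contra h3
  exact hcon ⟨L, iL, ψ, h, h3⟩

theorem rq_fp_of_resid {p : ℕ} {H : Type u} [Group H] (h : resid p H = ⊥) : Residually (FP p) H := by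
  intro g hg
  exact resid_out (by rw [h, mem_bot]; exact hg)

theorem FP.nilpotent {p : ℕ} (hp : p.Prime) {L : Type u} [Group L] (h : FP p L) :
    Group.IsNilpotent L := by
  have : Fact p.Prime := ⟨hp⟩
  have : Finite L := h.1
  exact h.2.isNilpotent

/-- the statement of the chain lemma -/
def ChainTorsion : Prop := ∀ (G : Type u) [Group G], HasMax G → Group.IsSolvable G →
  ∀ (C : ℕ → Subgroup G), Antitone C → (∀ n, (C n).Normal) →
    ∃ n₀, ∀ n ≥ n₀, ∀ x ∈ C n, ∃ e : ℕ, 0 < e ∧ x ^ e ∈ C (n + 1)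

theorem lcs_map_surj {H L : Type u} [Group H] [Group L] (f : H →* L) (hf : Function.Surjective f)
    (n : ℕ) : ((⊤ : Subgroup H).lowerCentralSeries n).map f =
      (⊤ : Subgroup L).lowerCentralSeries n := by
  rw [Subgroup.map_lowerCentralSeries, Subgroup.map_top_of_surjective f hf]

theorem quot_lcs_nilpotent (H : Type u) [Group H] (n : ℕ) :
    Group.IsNilpotent (H ⧸ (⊤ : Subgroup H).lowerCentralSeries n) := by
  rw [Subgroup.nilpotent_iff_lowerCentralSeries]
  refine ⟨n, ?_⟩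
  rw [← lcs_map_surj _ (QuotientGroup.mk'_surjective ((⊤ : Subgroup H).lowerCentralSeries n)) n,
    Subgroup.map_eq_bot_iff, QuotientGroup.ker_mk']

theorem lcs_central (H : Type u) [Group H] (n : ℕ) (x : H)
    (hx : x ∈ (⊤ : Subgroup H).lowerCentralSeries n) :
    QuotientGroup.mk' ((⊤ : Subgroup H).lowerCentralSeries (n + 1)) x ∈
      center (H ⧸ (⊤ : Subgroup H).lowerCentralSeries (n + 1)) := by
  rw [mem_center_iff]
  intro q
  obtain ⟨g, rfl⟩ := QuotientGroup.mk'_surjective _ q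
  have h1 : ⁅x, g⁆ ∈ (⊤ : Subgroup H).lowerCentralSeries (n + 1) := by
    rw [Subgroup.lowerCentralSeries_succ]
    exact commutator_mem_commutator hx (mem_top g)
  have h2 : QuotientGroup.mk' ((⊤ : Subgroup H).lowerCentralSeries (n + 1)) ⁅x, g⁆ = 1 :=
    (QuotientGroup.eq_one_iff _).2 h1
  rw [map_commutatorElement, commutatorElement_eq_one_iff_mul_comm] at h2
  exact h2.symm

end Pool.Agent.MP_f5d2e4_al
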