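import Pool.Agent.RSG.L

set_option autoImplicit false

namespace Pool.Agent.MP_f5d2e4_al

open Subgroup
open scoped commutatorElement

universe u

/-- case (ii): no factor of the lower central series is periodic -/
theorem case_two (hL3 : ChainTorsion.{u}) {H : Type u} [Group H] (hmax : HasMax H)
    (p : ℕ) (hp : p.Prime) (hsol : ∀ _ : (resid p H).Normal, Group.IsSolvable (H ⧸ resid p H))
    (hall : ∀ n, ∃ x ∈ (⊤ : Subgroup H).lowerCentralSeries n, ∀ e : ℕ, 0 < e →
      x ^ e ∉ (⊤ : Subgroup H).lowerCentralSeries (n + 1)) : False := by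
  have hRn : (resid p H).Normal := resid_normal p H
  have hS := hsol hRn
  have hmaxR : HasMax (H ⧸ resid p H) := hmax.of_surjective (QuotientGroup.mk' _)
    (QuotientGroup.mk'_surjective _)
  obtain ⟨n, hn⟩ := hL3 (H ⧸ resid p H) hmaxR hS
    (fun n => ((⊤ : Subgroup H).lowerCentralSeries n).map (QuotientGroup.mk' (resid p H)))
    (fun a b hab => map_mono (Subgroup.lowerCentralSeries_antitone _ hab))
    (fun n => (inferInstance : ((⊤ : Subgroup H).lowerCentralSeries n).Normal).map _
      (QuotientGroup.mk'_surjective _))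
  obtain ⟨x, hx, hxe⟩ := hall n
  obtain ⟨e, he, hmem⟩ := hn n le_rfl _ (mem_map_of_mem (QuotientGroup.mk' (resid p H)) hx)
  obtain ⟨y, hy, hyx⟩ := mem_map.1 hmem
  rw [← map_pow] at hyx
  have hr : y⁻¹ * x ^ e ∈ resid p H := QuotientGroup.eq.1 hyx
  set π := QuotientGroup.mk' ((⊤ : Subgroup H).lowerCentralSeries (n + 1)) with hπ
  have hnil : Group.IsNilpotent (H ⧸ (⊤ : Subgroup H).lowerCentralSeries (n + 1)) :=
    quot_lcs_nilpotent H (n + 1)
  have hπr : π (y⁻¹ * x ^ e) = π x ^ e := by
    have : π y = 1 := (QuotientGroup.eq_one_iff y).2 hy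
    rw [map_mul, map_inv, this, map_pow]
    group
  obtain ⟨L, iL, ψ, hFP, hψ⟩ := exists_p_quotient
    (H ⧸ (⊤ : Subgroup H).lowerCentralSeries (n + 1))
    (hmax.of_surjective π (QuotientGroup.mk'_surjective _)) (π (y⁻¹ * x ^ e))
    (by rw [hπr]; exact pow_mem (lcs_central H n x hx) e)
    (by
      intro k hk h1
      rw [hπr, ← pow_mul, ← map_pow] at h1
      exact hxe (e * k) (Nat.mul_pos he hk) ((QuotientGroup.eq_one_iff _).1 h1)) p hp
  exact hψ (hr L iL (ψ.comp π) hFP)

/-- a uniform exponent for a periodic factor of the lower central series -/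
theorem uniform_exponent {H : Type u} [Group H] (hmax : HasMax H) (n : ℕ)
    (h : ∀ x ∈ (⊤ : Subgroup H).lowerCentralSeries n, ∃ e : ℕ, 0 < e ∧
      x ^ e ∈ (⊤ : Subgroup H).lowerCentralSeries (n + 1)) :
    ∃ E : ℕ, 0 < E ∧ ∀ x ∈ (⊤ : Subgroup H).lowerCentralSeries n,
      x ^ E ∈ (⊤ : Subgroup H).lowerCentralSeries (n + 1) := by
  classical
  obtain ⟨S, hS⟩ := hmax ((⊤ : Subgroup H).lowerCentralSeries n)
  have h' : ∀ x : H, ∃ e : ℕ, 0 < e ∧ (x ∈ (⊤ : Subgroup H).lowerCentralSeries n →
      x ^ e ∈ (⊤ : Subgroup H).lowerCentralSeries (n + 1)) := by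
    intro x
    by_cases hx : x ∈ (⊤ : Subgroup H).lowerCentralSeries n
    · obtain ⟨e, he, h1⟩ := h x hx
      exact ⟨e, he, fun _ => h1⟩
    · exact ⟨1, one_pos, fun h1 => absurd h1 hx⟩
  choose f hf hf2 using h'
  set π := QuotientGroup.mk' ((⊤ : Subgroup H).lowerCentralSeries (n + 1)) with hπ
  let E := ∏ s ∈ S, f s
  let K : Subgroup H :=
    { carrier := {x | π x ∈ center (H ⧸ (⊤ : Subgroup H).lowerCentralSeries (n + 1)) ∧
        π x ^ E = 1}
      mul_mem' := by
        intro a b ha hb
        refine ⟨by rw [map_mul]; exact mul_mem ha.1 hb.1, ?_⟩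
        have hcomm : Commute (π a) (π b) := (mem_center_iff.1 hb.1 (π a))
        rw [map_mul, hcomm.mul_pow, ha.2, hb.2, one_mul]
      one_mem' := ⟨by rw [map_one]; exact one_mem _, by rw [map_one, one_pow]⟩
      inv_mem' := by
        intro a ha
        refine ⟨by rw [map_inv]; exact inv_mem ha.1, ?_⟩
        rw [map_inv, inv_pow, ha.2, inv_one] }
  have hle : (⊤ : Subgroup H).lowerCentralSeries n ≤ K := by
    rw [← hS, closure_le]
    intro s hs
    have hsn : s ∈ (⊤ : Subgroup H).lowerCentralSeries n := by rw [← hS]; exact subset_closure hs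
    refine ⟨lcs_central H n s hsn, ?_⟩
    have h1 : π s ^ f s = 1 := by
      rw [← map_pow]
      exact (QuotientGroup.eq_one_iff _).2 (hf2 s hsn)
    obtain ⟨k, hk⟩ := Finset.dvd_prod_of_mem f hs
    change π s ^ (∏ s ∈ S, f s) = 1
    rw [hk, pow_mul, h1, one_pow]
  refine ⟨E, Finset.prod_pos fun s _ => hf s, fun x hx => ?_⟩
  have h2 := (hle hx).2
  rw [← map_pow] at h2
  exact (QuotientGroup.eq_one_iff _).1 h2

/-- a `q`-quotient kills the lower central series from a factor of order prime to `q` on -/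
theorem lcs_le_resid {H : Type u} [Group H] (n E q : ℕ) (hq : q.Prime) (hqE : ¬ q ∣ E)
    (h : ∀ x ∈ (⊤ : Subgroup H).lowerCentralSeries n,
      x ^ E ∈ (⊤ : Subgroup H).lowerCentralSeries (n + 1)) :
    (⊤ : Subgroup H).lowerCentralSeries n ≤ resid q H := by
  intro x hx L iL ψ hFP
  have hqq : Fact q.Prime := ⟨hq⟩
  have hfin : Finite L := hFP.1
  have hnil : Group.IsNilpotent L := hFP.nilpotent hq
  set D : ℕ → Subgroup L := fun j => ((⊤ : Subgroup H).lowerCentralSeries j).map ψ with hD
  have hsucc : ∀ j, D (j + 1) = ⁅D j, D 0⁆ := by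
    intro j
    rw [hD]
    change ((⊤ : Subgroup H).lowerCentralSeries (j + 1)).map ψ = _
    rw [Subgroup.lowerCentralSeries_succ, Subgroup.map_commutator]
    rfl
  have h0 : D n ≤ D (n + 1) := by
    intro y hy
    obtain ⟨z, hz, rfl⟩ := mem_map.1 hy
    have h1 : ψ z ^ E ∈ D (n + 1) := by
      rw [← map_pow]
      exact mem_map_of_mem ψ (h z hz)
    have hcop : E.Coprime (orderOf (ψ z)) := by
      obtain ⟨k, hk⟩ := IsPGroup.iff_orderOf.1 hFP.2 (ψ z)
      rw [hk]
      exact Nat.Coprime.pow_right k ((Nat.Prime.coprime_iff_not_dvd hq).2 hqE).symm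
    obtain ⟨m, hm⟩ := exists_pow_eq_self_of_coprime hcop
    rw [← hm]
    exact pow_mem h1 m
  have hstep : ∀ j, D (n + j) ≤ D (n + j + 1) := by
    intro j
    induction j with
    | zero => exact h0
    | succ j ih =>
      rw [hsucc (n + (j + 1)), show n + (j + 1) = n + j + 1 by ring]
      calc D (n + j + 1) = ⁅D (n + j), D 0⁆ := hsucc _
        _ ≤ ⁅D (n + j + 1), D 0⁆ := commutator_mono ih le_rfl
  have hmono : ∀ j, D n ≤ D (n + j) := by
    intro j
    induction j with
    | zero => exact le_rfl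
    | succ j ih => exact ih.trans (hstep j)
  obtain ⟨m, hm⟩ := (Subgroup.nilpotent_iff_lowerCentralSeries (G := L)).1 hnil
  have hDm : D (n + m) = ⊥ := by
    rw [eq_bot_iff, ← hm, hD]
    change ((⊤ : Subgroup H).lowerCentralSeries (n + m)).map ψ ≤ _
    have h2 : ∀ j, ((⊤ : Subgroup H).lowerCentralSeries j).map ψ ≤
        (⊤ : Subgroup L).lowerCentralSeries j := by
      intro j
      induction j with
      | zero => exact le_top
      | succ j ih =>
        rw [Subgroup.lowerCentralSeries_succ, Subgroup.map_commutator,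
          Subgroup.lowerCentralSeries_succ]
        exact commutator_mono ih le_top
    exact (h2 (n + m)).trans (Subgroup.lowerCentralSeries_antitone _ (Nat.le_add_left m n))
  have h3 : ψ x ∈ D (n + m) := hmono m (mem_map_of_mem ψ hx)
  rw [hDm, mem_bot] at h3
  exact h3

/-- **residually nilpotent members are residually finite-`p` for one prime `p`** -/
theorem exists_prime (hL3 : ChainTorsion.{u}) {H : Type u} [Group H] (hmax : HasMax H)
    (hR : Residually (fun K _ => Group.IsSolvable K) H) (hA : HM1 (fun K _ => Group.IsSolvable K) H)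
    (hn : ¬ Group.IsSolvable H) (hN : Residually Nil H) : ∃ p : ℕ, p.Prime ∧ Residually (FP p) H := by
  by_contra hcon
  push Not at hcon
  have hRne : ∀ p : ℕ, p.Prime → resid p H ≠ ⊥ := fun p hp h => hcon p hp (rq_fp_of_resid h)
  have hsol : ∀ p : ℕ, p.Prime → ∀ _ : (resid p H).Normal, Group.IsSolvable (H ⧸ resid p H) := by
    intro p hp hnor
    refine hA (resid p H) (hRne p hp) ?_
    intro q hq
    obtain ⟨g, rfl⟩ := QuotientGroup.mk'_surjective (resid p H) q
    have hg : g ∉ resid p H := fun e => hq ((QuotientGroup.eq_one_iff g).2 e)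
    obtain ⟨L, iL, ψ, hFP, hψ⟩ := resid_out hg
    have hnil := hFP.nilpotent hp
    exact ⟨L, iL, QuotientGroup.lift (resid p H) ψ (fun x hx => hx L iL ψ hFP), inferInstance, hψ⟩
  by_cases hcase : ∃ n, ∀ x ∈ (⊤ : Subgroup H).lowerCentralSeries n, ∃ e : ℕ, 0 < e ∧
      x ^ e ∈ (⊤ : Subgroup H).lowerCentralSeries (n + 1)
  · obtain ⟨n, hn'⟩ := hcase
    obtain ⟨E, hE, hEx⟩ := uniform_exponent hmax n hn'
    -- finite intersections of nontrivial normal subgroups are nontrivial
    have hinter : ∀ s : Finset ℕ, (∀ q ∈ s, q.Prime) →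
        ((⊤ : Subgroup H).lowerCentralSeries n ⊓ s.inf (fun q => resid q H)).Normal ∧
        (⊤ : Subgroup H).lowerCentralSeries n ⊓ s.inf (fun q => resid q H) ≠ ⊥ := by
      intro s
      induction s using Finset.induction_on with
      | empty =>
        intro _
        refine ⟨by rw [Finset.inf_empty, inf_top_eq]; infer_instance, ?_⟩
        rw [Finset.inf_empty, inf_top_eq]
        intro h
        have : Group.IsNilpotent H := (Subgroup.nilpotent_iff_lowerCentralSeries (G := H)).2 ⟨n, h⟩
        exact hn inferInstance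
      | insert a s ha ih =>
        intro hs
        obtain ⟨h1, h2⟩ := ih (fun q hq => hs q (Finset.mem_insert_of_mem hq))
        have h3 : (resid a H).Normal := resid_normal a H
        have h4 : (⊤ : Subgroup H).lowerCentralSeries n ⊓
            (insert a s).inf (fun q => resid q H) =
            resid a H ⊓ ((⊤ : Subgroup H).lowerCentralSeries n ⊓ s.inf (fun q => resid q H)) := by
          rw [Finset.inf_insert, inf_left_comm]
        rw [h4]
        exact ⟨inferInstance, hA.inf_ne_bot ctx_solvable hmax trivial hR hn _ _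
          (hRne a (hs a (Finset.mem_insert_self a s))) h2⟩
    apply (hinter E.primeFactors (fun q hq => Nat.prime_of_mem_primeFactors hq)).2
    rw [eq_bot_iff_forall]
    intro x hx
    by_contra hx1
    obtain ⟨L, iL, ψ, hL, hψ⟩ := hN x hx1
    have hnilL : Group.IsNilpotent L := hL
    obtain ⟨q, L2, iL2, θ, hq, hFP, hθ⟩ := nil_survive ψ.range
      (hmax.of_surjective ψ.rangeRestrict ψ.rangeRestrict_surjective) (ψ.rangeRestrict x)
      (fun h => hψ (congrArg Subtype.val h))
    apply hθ
    have hxq : x ∈ resid q H := by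
      by_cases hqE : q ∣ E
      · have h5 : q ∈ E.primeFactors := Nat.mem_primeFactors.2 ⟨hq, hqE, hE.ne'⟩
        exact (Finset.inf_le (f := fun q => resid q H) h5) hx.2
      · exact lcs_le_resid n E q hq hqE hEx hx.1
    exact hxq L2 iL2 (θ.comp ψ.rangeRestrict) hFP
  · push Not at hcase
    exact case_two hL3 hmax 2 Nat.prime_two (hsol 2 Nat.prime_two) hcase

/-- bounded nilpotent length: reduction to residually nilpotent -/
theorem nilLen_reduction {G : Type u} [Group G] (Y : Subgroup G)
    (hmin : ∀ (H : Type u) [Group H], SecY Y H → HM1 (fun K _ => Group.IsSolvable K) H) (n : ℕ) :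
    ∀ (H : Type u) [Group H], SecY Y H → ¬ Group.IsSolvable H → Residually (NilLen n) H →
      ∃ D : Subgroup H, ¬ Group.IsSolvable D ∧ Residually Nil D := by
  induction n with
  | zero =>
    intro H _ _ hn hR
    exfalso
    apply hn
    have : Subsingleton H := by
      refine ⟨fun a b => ?_⟩
      have h1 : ∀ g : H, g = 1 := by
        intro g
        by_contra hg
        obtain ⟨L, iL, ψ, hL, hψ⟩ := hR g hg
        have : Subsingleton L := hL
        exact hψ (Subsingleton.elim _ _)
      rw [h1 a, h1 b]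
    infer_instance
  | succ n ih =>
    intro H _ hY hn hR
    have hR' : Residually (By Nil (NilLen n)) H := by
      intro g hg
      obtain ⟨L, iL, ψ, hL, hψ⟩ := hR g hg
      exact ⟨L, iL, ψ, hL, hψ⟩
    rcases (hmin H hY).prod_class qprop_solvable (fun K _ h => NilLen.solvable n K h) hn hR'
      with h | ⟨D, hD, hDn, hDR⟩
    · exact ih H hY hn h
    · exact ⟨D, hDn, hDR⟩

end Pool.Agent.MP_f5d2e4_al
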