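import Pool.Agent.RSG.M

set_option autoImplicit false

namespace Pool.Agent.MP_f5d2e4_al

open Subgroup

universe u

/-- `H` is reduced:
`norm`: normalisers of nontrivial soluble subgroups are soluble;
`cent`: a nontrivial subgroup with insoluble normaliser has trivial centraliser;
`quot`: every quotient `K / N`, `1 ≠ N ⊴ K ≤ H`, has a stationary derived series;
`ti`: if the soluble subgroups of `H` are nilpotent, distinct maximal ones meet trivially;
`prod`: if an insoluble `K ≤ H` is residually `A`-by-`B` (all `B`-groups soluble), then it is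
residually `B`, or it has an insoluble normal subgroup which is residually `A`. -/
structure Reduced (H : Type u) [Group H] : Prop where
  norm : ∀ S : Subgroup H, S ≠ ⊥ → Group.IsSolvable S → Group.IsSolvable (normalizer (S : Set H))
  cent : ∀ S : Subgroup H, S ≠ ⊥ → ¬ Group.IsSolvable (normalizer (S : Set H)) →
    centralizer (S : Set H) = ⊥
  quot : ∀ (K : Subgroup H) (N : Subgroup K) [N.Normal], N ≠ ⊥ →
    ∃ m, derivedSeries (K ⧸ N) (m + 1) = derivedSeries (K ⧸ N) m
  ti : (∀ S : Subgroup H, Group.IsSolvable S → Group.IsNilpotent S) →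
    ∀ A B : Subgroup H, Maximal (fun S : Subgroup H => Group.IsSolvable S) A →
      Maximal (fun S : Subgroup H => Group.IsSolvable S) B → A ≠ B → A ⊓ B = ⊥
  prod : ∀ A B : (K : Type u) → [Group K] → Prop,
    (∀ (K : Type u) [Group K], B K → Group.IsSolvable K) →
    ∀ K : Subgroup H, ¬ Group.IsSolvable K → Residually (By A B) K →
      Residually B K ∨ ∃ D : Subgroup K, D.Normal ∧ ¬ Group.IsSolvable D ∧ Residually A D

/-- `H` is periodic, with elements of odd order and finite normalisers of nontrivial finite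
subgroups, and a normal `π`-subgroup `M ≠ 1` of `K ≤ H` lies in one of finite index in `K` -/
structure PeriodicReduced (H : Type u) [Group H] : Prop where
  tors : ∀ h : H, IsOfFinOrder h
  odd : ∀ h : H, Odd (orderOf h)
  fin : ∀ S : Subgroup H, S ≠ ⊥ → Finite S → Finite (normalizer (S : Set H))
  pi : ∀ (π : Set ℕ) (K : Subgroup H) (M : Subgroup K), M.Normal → M ≠ ⊥ →
    PiGroup π M → ∃ M' : Subgroup K, M'.Normal ∧ M'.FiniteIndex ∧ M ≤ M' ∧ PiGroup π M'

theorem isPGroup_of_residually {p : ℕ} (hp : p.Prime) {H : Type u} [Group H]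
    (ht : ∀ h : H, IsOfFinOrder h) (hR : Residually (FP p) H) : IsPGroup p H := by
  have hpp : Fact p.Prime := ⟨hp⟩
  rw [IsPGroup.iff_orderOf]
  intro z
  by_contra hcon
  have hzpos : 0 < orderOf z := (ht z).orderOf_pos
  obtain ⟨q, hq, hqz, hqp⟩ : ∃ q : ℕ, q.Prime ∧ q ∣ orderOf z ∧ q ≠ p := by
    by_contra hno
    push Not at hno
    apply hcon
    exact ⟨(orderOf z).primeFactorsList.length, Nat.eq_prime_pow_of_unique_prime_dvd
      hzpos.ne' (fun {d} hd hdz => hno d hd hdz)⟩
  set w : H := z ^ (orderOf z / q) with hw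
  have hwo : orderOf w = q := by
    rw [hw, orderOf_pow_of_dvd (Nat.div_pos (Nat.le_of_dvd hzpos hqz) hq.pos).ne'
      (Nat.div_dvd_of_dvd hqz)]
    exact Nat.div_div_self hqz hzpos.ne'
  have hw1 : w ≠ 1 := by
    intro e
    rw [e, orderOf_one] at hwo
    exact hq.one_lt.ne hwo
  obtain ⟨L, iL, ψ, ⟨hfin, hpg⟩, hψ⟩ := hR w hw1
  obtain ⟨k, hk⟩ := IsPGroup.iff_orderOf.1 hpg (ψ w)
  have h1 : orderOf (ψ w) ∣ q := by
    rw [← hwo]
    exact orderOf_map_dvd ψ w
  rcases (Nat.dvd_prime hq).1 h1 with h | h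
  · exact hψ (orderOf_eq_one_iff.1 h)
  · rw [h] at hk
    have h2 : q ∣ p ^ k := by rw [← hk]
    exact hqp ((Nat.prime_dvd_prime_iff_eq hq hp).1 (hq.dvd_of_dvd_pow h2))

theorem HM1.hmin {G : Type u} [Group G] {Y : Subgroup G} {Q : (K : Type u) → [Group K] → Prop}
    (hmin : ∀ (H : Type u) [Group H], SecY Y H → HM1 Q H) (H : Type u) [Group H]
    (hH : SecY Y H) : HMin Q H :=
  fun K N _ hN1 hR => hmin K (hH.sub K) N hN1 hR

theorem reduced_of_member {H : Type u} [Group H] (hmax : HasMax H)
    (hR : Residually (fun K _ => Group.IsSolvable K) H) (hn : ¬ Group.IsSolvable H)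
    (hA : HMin (fun K _ => Group.IsSolvable K) H) : Reduced H := by
  have hc := common_solvable hmax hR hn hA
  refine ⟨hc.norm, hc.cent, fun K N _ hN1 => derived_stable hA K N hN1, hc.ti, ?_⟩
  intro A B hB K hK hRK
  have h1 : HM1 (fun K _ => Group.IsSolvable K) K := fun N _ hN1 hRN => hA K N hN1 hRN
  exact h1.prod_class qprop_solvable hB hK hRK

theorem periodic_of_member {H : Type u} [Group H] (hmax : HasMax H)
    (ht : ∀ g : H, IsOfFinOrder g)
    (hR : Residually (fun K _ => Group.IsSolvable K) H) (hn : ¬ Group.IsSolvable H)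
    (hA : HMin (fun K _ => Group.IsSolvable K) H) : PeriodicReduced H := by
  have c := pctx_solvable.{u}
  have hC := fun h hh => c.centralizer_finite hmax ht hR hA h hh
  have hinf : Infinite H := by
    rw [← not_finite_iff_infinite]
    exact fun hf => hn (c.finq hR hf)
  refine ⟨ht, odd_of_finite_centralizers (c.rf hmax ht hR) hmax ht hC,
    fun S h1 h2 => normalizer_finite' hC S h1 h2, ?_⟩
  intro π K M hM hM1 hMπ
  obtain ⟨M', hn', hle, hπ', hn'', hQ'⟩ := pi_radical c.c.q hmax ht hR hA π K M hM1 hMπ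
  refine ⟨M', hn', ?_, hle, hπ'⟩
  have hKm : HasMax K := hmax.of_injective K.subtype K.subtype_injective
  have hKt : ∀ g : K, IsOfFinOrder g := ctx_finite.tinj K.subtype K.subtype_injective ht
  have : Finite (K ⧸ M') := c.qfin
    (hKm.of_surjective (QuotientGroup.mk' M') (QuotientGroup.mk'_surjective M'))
    (ctx_finite.tsurj (QuotientGroup.mk' M') (QuotientGroup.mk'_surjective M') hKt) hQ'
  exact Subgroup.finiteIndex_of_finite_quotient

end Pool.Agent.MP_f5d2e4_al
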