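import Pool.Agent.RSG.N
import Pool.Agent.RSG.L3

set_option autoImplicit false

namespace Pool.Agent.MP_f5d2e4_al

open Subgroup
open scoped commutatorElement

universe u

theorem chainTorsion : ChainTorsion.{u} := fun _ _ h1 h2 C h3 h4 => chain_torsion h1 h2 C h3 h4

/-- class of torsion-free nilpotent groups -/
def TFNil (L : Type u) [Group L] : Prop :=
  Group.IsNilpotent L ∧ ∀ x : L, IsOfFinOrder x → x = 1

theorem tf_of_center_tf (G : Type u) [Group G] [Group.IsNilpotent G] :
    (∀ z ∈ center G, IsOfFinOrder z → z = 1) → ∀ x : G, IsOfFinOrder x → x = 1 := by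
  refine Group.nilpotent_center_quotient_ind (P := fun G _ _ =>
    (∀ z ∈ center G, IsOfFinOrder z → z = 1) → ∀ x : G, IsOfFinOrder x → x = 1) G ?_ ?_
  · intro G _ _ _ g _
    exact Subsingleton.elim _ _
  · intro G _ _ ih hz g hg
    have hz' : ∀ z ∈ center (G ⧸ center G), IsOfFinOrder z → z = 1 := by
      intro z hz1 hzf
      obtain ⟨y, rfl⟩ := QuotientGroup.mk'_surjective (center G) z
      obtain ⟨k, hk, hk1⟩ := isOfFinOrder_iff_pow_eq_one.1 hzf
      rw [← map_pow] at hk1
      have hyk : y ^ k ∈ center G := (QuotientGroup.eq_one_iff (y ^ k)).1 hk1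
      refine (QuotientGroup.eq_one_iff y).2 ?_
      rw [mem_center_iff]
      intro x
      have h1 : x * y * x⁻¹ * y⁻¹ ∈ center G := by
        rw [← QuotientGroup.ker_mk' (center G), MonoidHom.mem_ker, map_mul, map_mul, map_mul,
          map_inv, map_inv, mem_center_iff.1 hz1 (QuotientGroup.mk' (center G) x)]
        group
      set c := x * y * x⁻¹ * y⁻¹ with hc
      have h3 : x * y * x⁻¹ = c * y := by rw [hc]; group
      have hcomm : Commute c y := (mem_center_iff.1 h1 y).symm
      have h4 : c ^ k = 1 := by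
        have h5 := conj_pow (i := k) (a := x) (b := y)
        rw [h3, hcomm.mul_pow, mem_center_iff.1 hyk x, mul_inv_cancel_right] at h5
        exact mul_eq_right.1 h5
      have h6 : c = 1 := hz c h1 (isOfFinOrder_iff_pow_eq_one.2 ⟨k, hk, h4⟩)
      rw [h6, one_mul] at h3
      exact mul_inv_eq_iff_eq_mul.1 h3
    have h7 := ih hz' (QuotientGroup.mk' (center G) g) ((QuotientGroup.mk' (center G)).isOfFinOrder hg)
    exact hz g ((QuotientGroup.eq_one_iff g).1 h7) hg

/-- an element of infinite order of a nilpotent group with max survives in a torsion-free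
nilpotent quotient -/
theorem exists_tf_quotient (N : Type u) [Group N] [hnil : Group.IsNilpotent N] (hmax : HasMax N)
    (x : N) (hinf : ∀ e : ℕ, 0 < e → x ^ e ≠ 1) :
    ∃ (L : Type u) (_ : Group L) (ψ : N →* L), TFNil L ∧ ψ x ≠ 1 := by
  have hwf := hmax.wf
  obtain ⟨M, ⟨hMn, hMf⟩, hmx⟩ := WellFounded.has_min hwf.wf
    {M : Subgroup N | M.Normal ∧ Finite M} ⟨⊥, inferInstance, inferInstance⟩
  have hnil' : Group.IsNilpotent (N ⧸ M) := Group.nilpotent_of_surjective
    (QuotientGroup.mk' M) (QuotientGroup.mk'_surjective M)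
  refine ⟨N ⧸ M, inferInstance, QuotientGroup.mk' M, ⟨hnil', tf_of_center_tf (N ⧸ M) ?_⟩, ?_⟩
  · intro z hz hzf
    by_contra hz1
    have hPc : zpowers z ≤ center (N ⧸ M) := by rw [zpowers_le]; exact hz
    have hPn : (zpowers z).Normal := ⟨fun y hy g => by
      have : g * y * g⁻¹ = y := by rw [mem_center_iff.1 (hPc hy) g]; group
      rw [this]
      exact hy⟩
    have hPf : Finite (zpowers z) := finite_zpowers.2 hzf
    set P : Subgroup N := (zpowers z).comap (QuotientGroup.mk' M) with hP
    have hMP : M < P := by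
      refine lt_of_le_of_ne ?_ ?_
      · intro y hy
        rw [hP, mem_comap, show QuotientGroup.mk' M y = 1 from (QuotientGroup.eq_one_iff y).2 hy]
        exact one_mem _
      · intro e
        apply hz1
        obtain ⟨y, rfl⟩ := QuotientGroup.mk'_surjective M z
        have : y ∈ P := mem_zpowers _
        rw [← e] at this
        exact (QuotientGroup.eq_one_iff y).2 this
    have hPfin : Finite P := by
      let f : P →* zpowers z := (QuotientGroup.mk' M).subgroupComap (zpowers z)
      have hker : Finite f.ker := by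
        refine Finite.of_injective (β := M) (fun y => ⟨((y : P) : N), ?_⟩) ?_
        · have h1 : f y = 1 := y.2
          have h2 : QuotientGroup.mk' M ((y : P) : N) = 1 := congrArg Subtype.val h1
          exact (QuotientGroup.eq_one_iff _).1 h2
        · intro a b hab
          have h3 : ((a : P) : N) = ((b : P) : N) := congrArg (fun z : M => (z : N)) hab
          exact Subtype.ext (Subtype.ext h3)
      exact qprop_finite.ext f hker hPf
    exact hmx P ⟨hPn.comap _, hPfin⟩ hMP
  · intro h
    have hxM : x ∈ M := (QuotientGroup.eq_one_iff x).1 h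
    have h1 : (⟨x, hxM⟩ : M) ^ Nat.card M = 1 := pow_card_eq_one'
    exact hinf (Nat.card M) Nat.card_pos (congrArg Subtype.val h1)

/-- without periodic lower central factors, a member is residually torsion-free nilpotent -/
theorem rq_tfnil {H : Type u} [Group H] (hmax : HasMax H)
    (hA : HM1 (fun K _ => Group.IsSolvable K) H)
    (hall : ∀ n, ∃ x ∈ (⊤ : Subgroup H).lowerCentralSeries n, ∀ e : ℕ, 0 < e →
      x ^ e ∉ (⊤ : Subgroup H).lowerCentralSeries (n + 1)) : Residually TFNil H := by
  let W : Subgroup H :=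
    { carrier := {x | ∀ (L : Type u) (_ : Group L) (ψ : H →* L), TFNil L → ψ x = 1}
      mul_mem' := by
        intro a b ha hb L iL ψ h
        rw [map_mul, ha L iL ψ h, hb L iL ψ h, one_mul]
      one_mem' := by
        intro L iL ψ h
        exact map_one ψ
      inv_mem' := by
        intro a ha L iL ψ h
        rw [map_inv, ha L iL ψ h, inv_one] }
  have hWn : W.Normal := by
    refine ⟨fun x hx g L iL ψ h => ?_⟩
    rw [map_mul, map_mul, map_inv, hx L iL ψ h]
    group
  have hout : ∀ x : H, x ∉ W → ∃ (L : Type u) (_ : Group L) (ψ : H →* L), TFNil L ∧ ψ x ≠ 1 := by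
    intro x hx
    by_contra hcon
    apply hx
    intro L iL ψ h
    by_contra h3
    exact hcon ⟨L, iL, ψ, h, h3⟩
  by_cases hW : W = ⊥
  · intro g hg
    exact hout g (by rw [hW, mem_bot]; exact hg)
  exfalso
  have hsol : Group.IsSolvable (H ⧸ W) := by
    refine hA W hW ?_
    intro q hq
    obtain ⟨g, rfl⟩ := QuotientGroup.mk'_surjective W q
    have hg : g ∉ W := fun e => hq ((QuotientGroup.eq_one_iff g).2 e)
    obtain ⟨L, iL, ψ, hL, hψ⟩ := hout g hg
    have hnilL : Group.IsNilpotent L := hL.1
    exact ⟨L, iL, QuotientGroup.lift W ψ (fun x hx => hx L iL ψ hL), inferInstance, hψ⟩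
  have hmaxW : HasMax (H ⧸ W) := hmax.of_surjective (QuotientGroup.mk' _)
    (QuotientGroup.mk'_surjective _)
  obtain ⟨n, hn⟩ := chain_torsion hmaxW hsol
    (fun n => ((⊤ : Subgroup H).lowerCentralSeries n).map (QuotientGroup.mk' W))
    (fun a b hab => map_mono (Subgroup.lowerCentralSeries_antitone _ hab))
    (fun n => (inferInstance : ((⊤ : Subgroup H).lowerCentralSeries n).Normal).map _
      (QuotientGroup.mk'_surjective _))
  obtain ⟨x, hx, hxe⟩ := hall n
  obtain ⟨e, he, hmem⟩ := hn n le_rfl _ (mem_map_of_mem (QuotientGroup.mk' W) hx)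
  obtain ⟨y, hy, hyx⟩ := mem_map.1 hmem
  rw [← map_pow] at hyx
  have hr : y⁻¹ * x ^ e ∈ W := QuotientGroup.eq.1 hyx
  set π := QuotientGroup.mk' ((⊤ : Subgroup H).lowerCentralSeries (n + 1)) with hπ
  have hnil : Group.IsNilpotent (H ⧸ (⊤ : Subgroup H).lowerCentralSeries (n + 1)) :=
    quot_lcs_nilpotent H (n + 1)
  have hπr : π (y⁻¹ * x ^ e) = π x ^ e := by
    have : π y = 1 := (QuotientGroup.eq_one_iff y).2 hy
    rw [map_mul, map_inv, this, map_pow]
    group
  obtain ⟨L, iL, ψ, hL, hψ⟩ := exists_tf_quotient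
    (H ⧸ (⊤ : Subgroup H).lowerCentralSeries (n + 1))
    (hmax.of_surjective π (QuotientGroup.mk'_surjective _)) (π (y⁻¹ * x ^ e))
    (by
      intro k hk h1
      rw [hπr, ← pow_mul, ← map_pow] at h1
      exact hxe (e * k) (Nat.mul_pos he hk) ((QuotientGroup.eq_one_iff _).1 h1))
  exact hψ (hr L iL (ψ.comp π) hL)

end Pool.Agent.MP_f5d2e4_al
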