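import Pool.Agent.RSG.Q

set_option autoImplicit false

namespace Pool.Agent.MP_f5d2e4_al

open Subgroup

universe u

/-- some factor of the lower central series of `K` is periodic -/
def HasPeriodicFactor (K : Type u) [Group K] : Prop :=
  ∃ n, ∀ x ∈ (⊤ : Subgroup K).lowerCentralSeries n, ∃ e : ℕ, 0 < e ∧
    x ^ e ∈ (⊤ : Subgroup K).lowerCentralSeries (n + 1)

/-- **Main theorem.** -/
theorem main2 (G : Type u) [Group G] (hmax : HasMax G) (hR : ResSol G)
    (hn : ¬ Group.IsSolvable G) :
    ∃ (H : Type u) (_ : Group H), IsSection H G ∧ HasMax H ∧ ResSol H ∧ ¬ Group.IsSolvable H ∧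
      Reduced H ∧
      (PeriodicReduced H ∨ ∀ S : Subgroup H, (∀ s : S, IsOfFinOrder s) → Finite S) ∧
      ((Residually TFNil H ∧ (∀ S : Subgroup H, Group.IsSolvable S → Group.IsNilpotent S) ∧
          ∃ x y : H, closure {x, y} = ⊤) ∨
        (∃ p : ℕ, p.Prime ∧ Residually (FP p) H ∧ (∀ K : Subgroup H, HasPeriodicFactor K) ∧
          ((∀ h : H, IsOfFinOrder h) → IsPGroup p H ∧
            ∃ x y : H, x ^ p = 1 ∧ y ^ p = 1 ∧ closure {x, y} = ⊤)) ∨
        ((∀ K : Subgroup H, ¬ Group.IsSolvable K → ∀ n, ¬ Residually (NilLen n) K) ∧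
          ((∀ h : H, IsOfFinOrder h) → ∀ p : ℕ, p.Prime → ∀ P : Subgroup H, IsPGroup p P →
            Finite P))) := by
  obtain ⟨Y, ⟨H₀, iH₀, hY₀, hR₀, hn₀⟩, hmin⟩ :=
    exists_Y1 (Q := fun K _ => Group.IsSolvable K) hmax (resSol_iff.1 hR) hn
  -- members of the family
  let Mem : (H : Type u) → [Group H] → Prop := fun H _ =>
    SecY Y H ∧ Residually (fun K _ => Group.IsSolvable K) H ∧ ¬ Group.IsSolvable H
  have hMsub : ∀ (H : Type u) [Group H], Mem H → ∀ K : Subgroup H, ¬ Group.IsSolvable K →
      Mem K := fun H _ hM K hK =>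
    ⟨hM.1.sub K, hM.2.1.of_injective K.subtype K.subtype_injective, hK⟩
  have hMmax : ∀ (H : Type u) [Group H], Mem H → HasMax H := fun H _ hM => hM.1.hasMax hmax
  have hMmin : ∀ (H : Type u) [Group H], Mem H → HMin (fun K _ => Group.IsSolvable K) H :=
    fun H _ hM => HM1.hmin hmin H hM.1
  have hMred : ∀ (H : Type u) [Group H], Mem H → Reduced H := fun H _ hM =>
    reduced_of_member (hMmax H hM) hM.2.1 hM.2.2 (hMmin H hM)
  -- residually torsion-free nilpotent members
  by_cases hTF : ∃ (H : Type u) (_ : Group H), Mem H ∧ Residually TFNil H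
  · obtain ⟨H', iH', hM', hTF'⟩ := hTF
    have hnil' : ∀ S : Subgroup H', Group.IsSolvable S → Group.IsNilpotent S := fun S hS =>
      nilpotent_of_solvable_tfnil ((hMmax H' hM').of_injective S.subtype S.subtype_injective) hS
        (hTF'.of_injective S.subtype S.subtype_injective)
    obtain ⟨x, y, hxy⟩ := exists_two_gen_insoluble (hMmax H' hM') hM'.2.2
      ((hMred H' hM').ti hnil')
    let H : Subgroup H' := closure ({x, y} : Set H')
    have hM : Mem H := hMsub H' hM' H hxy
    have hTF : Residually TFNil H := hTF'.of_injective H.subtype H.subtype_injective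
    refine ⟨H, inferInstance, hM.1.isSection, hMmax H hM, resSol_iff.2 hM.2.1, hM.2.2, hMred H hM,
      Or.inr fun S hS => ?_, Or.inl ⟨hTF, fun S hS =>
        nilpotent_of_solvable_tfnil ((hMmax H hM).of_injective S.subtype S.subtype_injective) hS
          (hTF.of_injective S.subtype S.subtype_injective),
        ⟨x, subset_closure (by simp)⟩, ⟨y, subset_closure (by simp)⟩, closure_pair_top x y _ _⟩⟩
    have : Subsingleton S := by
      have h1 : ∀ s : S, s = 1 := by
        intro s
        by_contra hs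
        obtain ⟨L, iL, ψ, hL, hψ⟩ := hTF (s : H) (fun e => hs (Subtype.ext e))
        exact hψ (hL.2 _ (ψ.isOfFinOrder (S.subtype.isOfFinOrder (hS s))))
      exact ⟨fun a b => by rw [h1 a, h1 b]⟩
    infer_instance
  let Tor : Prop := ∃ (H : Type u) (_ : Group H), Mem H ∧ ∀ g : H, IsOfFinOrder g
  -- first dichotomy
  have hT1 : ∀ (H : Type u) [Group H], Mem H → (Tor → ∀ g : H, IsOfFinOrder g) →
      (PeriodicReduced H ∨ ∀ S : Subgroup H, (∀ s : S, IsOfFinOrder s) → Finite S) := by
    intro H _ hM hT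
    by_cases hTor : Tor
    · left
      exact periodic_of_member (hMmax H hM) (hT hTor) hM.2.1 hM.2.2 (hMmin H hM)
    · right
      intro S hS
      by_contra hinf
      have hSmax : HasMax S := (hMmax H hM).of_injective S.subtype S.subtype_injective
      exact hTor ⟨S, inferInstance, hMsub H hM S (fun hs => hinf (finite_of_solvable hSmax hS hs)),
        hS⟩
  -- periodic lower central factors
  have hPF : ∀ (H : Type u) [Group H], Mem H → ∀ K : Subgroup H, HasPeriodicFactor K := by
    intro H _ hM K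
    have hKmax : HasMax K := (hMmax H hM).of_injective K.subtype K.subtype_injective
    by_cases hKs : Group.IsSolvable K
    · obtain ⟨n, hn⟩ := chain_torsion hKmax hKs
        (fun n => (⊤ : Subgroup K).lowerCentralSeries n)
        (Subgroup.lowerCentralSeries_antitone _) (fun n => inferInstance)
      exact ⟨n, hn n le_rfl⟩
    · by_contra hno
      unfold HasPeriodicFactor at hno
      push Not at hno
      exact hTF ⟨K, inferInstance, hMsub H hM K hKs,
        rq_tfnil hKmax (hmin K (hMsub H hM K hKs).1) hno⟩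
  -- the starting member
  obtain ⟨H₁, iH₁, hM₁, hT₁⟩ : ∃ (H : Type u) (_ : Group H), Mem H ∧
      (Tor → ∀ g : H, IsOfFinOrder g) := by
    by_cases hTor : Tor
    · obtain ⟨H, iH, hM, ht⟩ := hTor
      exact ⟨H, iH, hM, fun _ => ht⟩
    · exact ⟨H₀, iH₀, ⟨hY₀, hR₀, hn₀⟩, fun h => absurd h hTor⟩
  have hsubT : ∀ (H : Type u) [Group H], (Tor → ∀ g : H, IsOfFinOrder g) → ∀ K : Subgroup H,
      (Tor → ∀ g : K, IsOfFinOrder g) := fun H _ h K ht =>
    ctx_finite.tinj K.subtype K.subtype_injective (h ht)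
  by_cases hα : ∃ (p : ℕ) (H : Type u) (_ : Group H), p.Prime ∧ Mem H ∧
      (Tor → ∀ g : H, IsOfFinOrder g) ∧ Residually (FP p) H
  · obtain ⟨p, H, iH, hp, hM, hT, hRp⟩ := hα
    have hpp : Fact p.Prime := ⟨hp⟩
    by_cases htH : ∀ g : H, IsOfFinOrder g
    · -- periodic: a `p`-group generated by two elements of order `p`
      have hpH : IsPGroup p H := isPGroup_of_residually hp htH hRp
      have hC := fun h hh => pctx_solvable.centralizer_finite (hMmax H hM) htH hM.2.1
        (hMmin H hM) h hh
      have hN := fun S h1 h2 => normalizer_finite' hC S h1 h2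
      have hinf : Infinite H := by
        rw [← not_finite_iff_infinite]
        exact fun hf => hM.2.2 (pctx_solvable.finq hM.2.1 hf)
      obtain ⟨x, y, hx, hy, hxy⟩ := exists_two_gen (hMmax H hM) hinf hpH
        (fun A B hA hB hAB => maximal_finite_TI (hMmax H hM) hpH hN A B hA hB hAB) hN
      set K : Subgroup H := closure ({x, y} : Set H) with hK
      have hKmax : HasMax K := (hMmax H hM).of_injective K.subtype K.subtype_injective
      have hKt : ∀ g : K, IsOfFinOrder g := ctx_finite.tinj K.subtype K.subtype_injective htH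
      have hKn : ¬ Group.IsSolvable K := fun h => by
        have := finite_of_solvable hKmax hKt h
        exact not_finite K
      have hKM : Mem K := hMsub H hM K hKn
      have hxK : x ∈ K := subset_closure (by simp)
      have hyK : y ∈ K := subset_closure (by simp)
      refine ⟨K, inferInstance, hKM.1.isSection, hKmax, resSol_iff.2 hKM.2.1, hKn,
        hMred K hKM, hT1 K hKM (fun _ => hKt), Or.inr (Or.inl ⟨p, hp,
          hRp.of_injective K.subtype K.subtype_injective, hPF K hKM,
          fun _ => ⟨hpH.to_subgroup K,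
            ⟨x, hxK⟩, ⟨y, hyK⟩, Subtype.ext hx, Subtype.ext hy, ?_⟩⟩)⟩
      exact closure_pair_top x y _ _
    · exact ⟨H, iH, hM.1.isSection, hMmax H hM, resSol_iff.2 hM.2.1, hM.2.2, hMred H hM,
        hT1 H hM hT, Or.inr (Or.inl ⟨p, hp, hRp, hPF H hM, fun h => absurd h htH⟩)⟩
  · have hno : ∀ K : Subgroup H₁, ¬ Group.IsSolvable K → ∀ n, ¬ Residually (NilLen n) K := by
      intro K hK n hRn
      have hKM : Mem K := hMsub H₁ hM₁ K hK
      obtain ⟨D, hDn, hDR⟩ := nilLen_reduction Y hmin n K hKM.1 hK hRn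
      have hDM : Mem D := hMsub K hKM D hDn
      obtain ⟨p, hp, hRp⟩ := exists_prime chainTorsion (hMmax D hDM) hDM.2.1 (hmin D hDM.1) hDn hDR
      exact hα ⟨p, D, inferInstance, hp, hDM, hsubT K (hsubT H₁ hT₁ K) D, hRp⟩
    refine ⟨H₁, iH₁, hM₁.1.isSection, hMmax H₁ hM₁, resSol_iff.2 hM₁.2.1, hM₁.2.2, hMred H₁ hM₁,
      hT1 H₁ hM₁ hT₁, Or.inr (Or.inr ⟨hno, fun ht p hp P hP => ?_⟩)⟩
    by_contra hinf
    have hpp : Fact p.Prime := ⟨hp⟩
    have hPmax : HasMax P := (hMmax H₁ hM₁).of_injective P.subtype P.subtype_injective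
    have hPt : ∀ g : P, IsOfFinOrder g := ctx_finite.tinj P.subtype P.subtype_injective ht
    have hPn : ¬ Group.IsSolvable P := fun h => hinf (finite_of_solvable hPmax hPt h)
    have hPR : Residually (fun K _ => Group.IsSolvable K) P :=
      hM₁.2.1.of_injective P.subtype P.subtype_injective
    refine hno P hPn 1 ?_
    intro g hg
    obtain ⟨L, iL, ψ, hL, hψ⟩ := hPR g hg
    have hrs : Group.IsSolvable ψ.range := qprop_solvable.inj ψ.range.subtype
      ψ.range.subtype_injective hL
    have hfin : Finite ψ.range := finite_of_solvable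
      (hPmax.of_surjective ψ.rangeRestrict ψ.rangeRestrict_surjective)
      (ctx_finite.tsurj ψ.rangeRestrict ψ.rangeRestrict_surjective hPt) hrs
    have hpg : IsPGroup p ψ.range := hP.of_surjective ψ.rangeRestrict ψ.rangeRestrict_surjective
    have hnil : Group.IsNilpotent ψ.range := hpg.isNilpotent
    refine ⟨ψ.range, inferInstance, ψ.rangeRestrict, ⟨⊤, inferInstance, ?_, ?_⟩,
      fun e => hψ (congrArg Subtype.val e)⟩
    · infer_instance
    · exact QuotientGroup.subsingleton_quotient_top

end Pool.Agent.MP_f5d2e4_al
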