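import Pool.Agent.RSG.O

set_option autoImplicit false

namespace Pool.Agent.MP_f5d2e4_al

open Subgroup

universe u

theorem lcs_map_le {H L : Type u} [Group H] [Group L] (ψ : H →* L) (j : ℕ) :
    ((⊤ : Subgroup H).lowerCentralSeries j).map ψ ≤ (⊤ : Subgroup L).lowerCentralSeries j := by
  induction j with
  | zero => exact le_top
  | succ j ih =>
    rw [Subgroup.lowerCentralSeries_succ, Subgroup.map_commutator,
      Subgroup.lowerCentralSeries_succ]
    exact commutator_mono ih le_top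

/-- a soluble residually (torsion-free nilpotent) group with max is nilpotent -/
theorem nilpotent_of_solvable_tfnil {K : Type u} [Group K] (hmax : HasMax K)
    (hs : Group.IsSolvable K) (hR : Residually TFNil K) : Group.IsNilpotent K := by
  obtain ⟨n, hn⟩ := chain_torsion hmax hs (fun n => (⊤ : Subgroup K).lowerCentralSeries n)
    (Subgroup.lowerCentralSeries_antitone _) (fun n => inferInstance)
  refine (Subgroup.nilpotent_iff_lowerCentralSeries (G := K)).2 ⟨n, ?_⟩
  rw [eq_bot_iff_forall]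
  intro x hx
  by_contra hx1
  have hstep : ∀ j, ∃ e : ℕ, 0 < e ∧ x ^ e ∈ (⊤ : Subgroup K).lowerCentralSeries (n + j) := by
    intro j
    induction j with
    | zero => exact ⟨1, one_pos, by rw [pow_one]; exact hx⟩
    | succ j ih =>
      obtain ⟨e, he, hxe⟩ := ih
      obtain ⟨f, hf, hxf⟩ := hn (n + j) (Nat.le_add_right n j) _ hxe
      exact ⟨e * f, Nat.mul_pos he hf, by rw [pow_mul]; exact hxf⟩
  obtain ⟨L, iL, ψ, hL, hψ⟩ := hR x hx1
  have hnil : Group.IsNilpotent L := hL.1
  obtain ⟨m, hm⟩ := (Subgroup.nilpotent_iff_lowerCentralSeries (G := L)).1 hnil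
  obtain ⟨e, he, hxe⟩ := hstep m
  have h1 : ψ (x ^ e) ∈ (⊤ : Subgroup L).lowerCentralSeries m :=
    Subgroup.lowerCentralSeries_antitone _ (Nat.le_add_left m n)
      (lcs_map_le ψ (n + m) (mem_map_of_mem ψ hxe))
  rw [hm, mem_bot, map_pow] at h1
  exact hψ (hL.2 _ (isOfFinOrder_iff_pow_eq_one.2 ⟨e, he, h1⟩))

/-- if distinct maximal soluble subgroups meet trivially, two elements generate an insoluble
subgroup -/
theorem exists_two_gen_insoluble {H : Type u} [Group H] (hmax : HasMax H)
    (hn : ¬ Group.IsSolvable H)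
    (hTI : ∀ A B : Subgroup H, Maximal (fun S : Subgroup H => Group.IsSolvable S) A →
      Maximal (fun S : Subgroup H => Group.IsSolvable S) B → A ≠ B → A ⊓ B = ⊥) :
    ∃ x y : H, ¬ Group.IsSolvable (closure ({x, y} : Set H)) := by
  have hwf := hmax.wf
  have hcov : ∀ S : Subgroup H, Group.IsSolvable S → ∃ A : Subgroup H, S ≤ A ∧
      Maximal (fun S : Subgroup H => Group.IsSolvable S) A := by
    intro S hS
    obtain ⟨C, ⟨hNC, hCf⟩, hCm⟩ := WellFounded.has_min hwf.wf
      {S' : Subgroup H | S ≤ S' ∧ Group.IsSolvable S'} ⟨_, le_rfl, hS⟩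
    refine ⟨C, hNC, hCf, fun S' hS' hCS => ?_⟩
    by_contra hnot
    exact hCm S' ⟨hNC.trans hCS, hS'⟩ (lt_of_le_not_ge hCS hnot)
  obtain ⟨x, hx1⟩ : ∃ x : H, x ≠ 1 := by
    by_contra hcon
    push Not at hcon
    apply hn
    have : Subsingleton H := ⟨fun a b => by rw [hcon a, hcon b]⟩
    infer_instance
  have hzs : Group.IsSolvable (zpowers x) := by
    refine Group.isSolvable_of_comm fun a b => Subtype.ext ?_
    obtain ⟨m, hm⟩ := mem_zpowers_iff.1 a.2
    obtain ⟨k, hk⟩ := mem_zpowers_iff.1 b.2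
    change (a : H) * b = b * a
    rw [← hm, ← hk, ← zpow_add, ← zpow_add, add_comm]
  obtain ⟨A, hxA, hA⟩ := hcov (zpowers x) hzs
  have hxA' : x ∈ A := hxA (mem_zpowers x)
  obtain ⟨y, hy⟩ : ∃ y : H, y ∉ A := by
    by_contra hcon
    push Not at hcon
    have hAt : A = ⊤ := (eq_top_iff' A).2 hcon
    apply hn
    have h1 : Group.IsSolvable A := hA.1
    rw [hAt] at h1
    exact qprop_solvable.surj (⊤ : Subgroup H).subtype (fun h => ⟨⟨h, mem_top h⟩, rfl⟩) h1
  refine ⟨x, y, fun hs => ?_⟩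
  obtain ⟨C, hC, hCmax⟩ := hcov _ hs
  have hxC : x ∈ C := hC (subset_closure (by simp))
  have hyC : y ∈ C := hC (subset_closure (by simp))
  have hCA : C = A := by
    by_contra hne
    have := hTI C A hCmax hA hne
    have h1 : x ∈ C ⊓ A := ⟨hxC, hxA'⟩
    rw [this, mem_bot] at h1
    exact hx1 h1
  exact hy (hCA ▸ hyC)

/-- the generators generate the subgroup generated by them -/
theorem closure_pair_top {H : Type u} [Group H] (x y : H)
    (hxK : x ∈ closure ({x, y} : Set H)) (hyK : y ∈ closure ({x, y} : Set H)) :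
    closure ({⟨x, hxK⟩, ⟨y, hyK⟩} : Set (closure ({x, y} : Set H))) = ⊤ := by
  apply Subgroup.map_injective (closure ({x, y} : Set H)).subtype_injective
  rw [MonoidHom.map_closure, ← MonoidHom.range_eq_map, Subgroup.range_subtype]
  have h1 : ((closure ({x, y} : Set H)).subtype : closure ({x, y} : Set H) → H) ''
      {⟨x, hxK⟩, ⟨y, hyK⟩} = {x, y} := by
    rw [Set.image_pair]
    rfl
  rw [h1]

end Pool.Agent.MP_f5d2e4_al
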