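import Pool.Agent.RSG.P

set_option autoImplicit false

namespace Pool.Agent.MP_f5d2e4_al

open Subgroup

universe u

theorem IsSection.of_quotient {G H : Type u} [Group G] [Group H] (R : Subgroup G) [R.Normal]
    (h : IsSection H (G ⧸ R)) : IsSection H G := by
  obtain ⟨X, f, hf⟩ := h
  refine ⟨X.comap (QuotientGroup.mk' R), f.comp ((QuotientGroup.mk' R).subgroupComap X),
    hf.comp ?_⟩
  exact MonoidHom.subgroupComap_surjective_of_surjective _ _ (QuotientGroup.mk'_surjective R)

/-- a group with max without infinite perfect subgroups and without soluble subgroups of finite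
index has an insoluble residually soluble quotient -/
theorem exists_quotient {G : Type u} [Group G]
    (hv : ∀ S : Subgroup G, S.FiniteIndex → ¬ Group.IsSolvable S)
    (hp : ∀ P : Subgroup G, ⁅P, P⁆ = P → Finite P) :
    ∃ (R : Subgroup G) (_ : R.Normal), ResSol (G ⧸ R) ∧ ¬ Group.IsSolvable (G ⧸ R) := by
  set R : Subgroup G := ⨅ n, derivedSeries G n with hR
  have hRn : R.Normal := by
    rw [hR]
    exact normal_iInf_normal fun n => derivedSeries_normal _ n
  have hRle : ∀ n, R ≤ derivedSeries G n := fun n => iInf_le _ n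
  refine ⟨R, hRn, ?_, ?_⟩
  · intro q hq
    obtain ⟨g, rfl⟩ := QuotientGroup.mk'_surjective R q
    have hg : g ∉ R := fun e => hq ((QuotientGroup.eq_one_iff g).2 e)
    rw [hR, mem_iInf] at hg
    push Not at hg
    obtain ⟨n, hn⟩ := hg
    refine ⟨n, fun hm => hn ?_⟩
    rw [← map_derivedSeries_eq (QuotientGroup.mk'_surjective R) n] at hm
    obtain ⟨d, hd, hdg⟩ := mem_map.1 hm
    have h1 : d⁻¹ * g ∈ R := QuotientGroup.eq.1 hdg
    have h2 : g = d * (d⁻¹ * g) := by group
    rw [h2]
    exact mul_mem hd (hRle n h1)
  · intro hs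
    obtain ⟨n, hn⟩ := (Group.isSolvable_def _).1 hs
    have h1 : derivedSeries G n ≤ R := by
      rw [← map_derivedSeries_eq (QuotientGroup.mk'_surjective R) n, Subgroup.map_eq_bot_iff,
        QuotientGroup.ker_mk'] at hn
      exact hn
    have h2 : R = derivedSeries G n := le_antisymm (hRle n) h1
    have h3 : ⁅R, R⁆ = R := by
      apply le_antisymm
      · exact commutator_le_left R R
      · have h4 := hRle (n + 1)
        rw [derivedSeries_succ, ← h2] at h4
        exact h4
    have hfin : Finite R := hp R h3
    -- a soluble subgroup of finite index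
    let f : G →* MulAut R := MulAut.conjNormal
    have hfi : Finite (MulAut R) := by
      refine Finite.of_injective (β := R → R) (fun e => (e : R → R)) ?_
      intro a b hab
      exact MulEquiv.ext (congrFun hab)
    have hquot : Finite (G ⧸ f.ker) :=
      Finite.of_injective _ (QuotientGroup.kerLift_injective f)
    refine hv f.ker Subgroup.finiteIndex_of_finite_quotient ?_
    refine qprop_solvable.ext ((QuotientGroup.mk' R).comp f.ker.subtype) ?_ hs
    refine Group.isSolvable_of_comm fun a b => ?_
    have ha : (((a : f.ker) : G)) ∈ R := (QuotientGroup.eq_one_iff _).1 a.2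
    have hb : f ((b : f.ker) : G) = 1 := (b : f.ker).2
    have h5 : (f ((b : f.ker) : G)) ⟨((a : f.ker) : G), ha⟩ = ⟨((a : f.ker) : G), ha⟩ := by
      rw [hb]
      rfl
    have h6 : ((b : f.ker) : G) * ((a : f.ker) : G) * ((b : f.ker) : G)⁻¹ = ((a : f.ker) : G) := by
      have h7 := congrArg Subtype.val h5
      rwa [MulAut.conjNormal_apply] at h7
    apply Subtype.ext
    apply Subtype.ext
    exact (mul_inv_eq_iff_eq_mul.1 h6).symm

end Pool.Agent.MP_f5d2e4_al
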